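import Mathlib
import Pool.Agent.Y248.FC.Stm
set_option autoImplicit false

/-! # Project FC: basic bounds for the energy -/

namespace Pool.Agent.Y350.FC

open MeasureTheory Set Metric Complex Filter
open scoped ENNReal RealInnerProductSpace Topology FourierTransform
open Pool.Agent.H789R2.FR (E sg T)
open Pool.Agent.H438R2.RZ (Bump)
open Pool.Agent.Y248.BA (mu Kr Tp mu_bdd mu_supp mu_loc shell_vol)
open Pool.Agent.Y248.FB Pool.Agent.Y248.FC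

/-- the energy -/
noncomputable def En {n : ℕ} (ψ : ℝ → ℝ) (A : ℝ) (μ : Measure (E n)) (g : E n → ℂ) : ℝ≥0∞ :=
  ∫⁻ ξ, ‖Hd ψ A (fun _ => 1) g μ ξ‖ₑ ^ (2 : ℝ)

theorem Hd_eq {n : ℕ} (ψ : ℝ → ℝ) (A : ℝ) (μ : Measure (E n)) (g : E n → ℂ) (ξ : E n) :
    Hd ψ A (fun _ => 1) g μ ξ = mu ψ A 1 ξ * Fm g μ ξ := by
  unfold Hd Fm
  rw [← integral_const_mul]
  exact integral_congr_ae (Eventually.of_forall fun x => by simp only; ring)

theorem ball_fin {n : ℕ} {μ : Measure (E n)} (hμ : Dim n μ) (ρ : ℝ) : μ (closedBall 0 ρ) < ∞ := by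
  refine (measure_mono (closedBall_subset_closedBall (le_max_left ρ 1))).trans_lt ?_
  exact (hμ 0 _ (le_max_right _ _)).trans_lt ENNReal.ofReal_lt_top

theorem bb_int {n : ℕ} {μ : Measure (E n)} (hμ : Dim n μ) {g : E n → ℂ} (hg : BB g) :
    Integrable g μ := by
  obtain ⟨hm, ⟨M, hM⟩, ρ, hρ⟩ := hg
  have h1 : IntegrableOn g (closedBall 0 ρ) μ :=
    Measure.integrableOn_of_bounded (M := M) (ball_fin hμ ρ).ne hm.aestronglyMeasurable
      (Eventually.of_forall hM)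
  exact h1.integrable_of_forall_notMem_eq_zero fun x hx => hρ x hx

theorem bb_ind {n : ℕ} {g : E n → ℂ} (hg : BB g) {S : Set (E n)} (hS : MeasurableSet S) :
    BB (S.indicator g) := by
  obtain ⟨hm, ⟨M, hM⟩, ρ, hρ⟩ := hg
  refine ⟨hm.indicator hS, ⟨|M|, fun x => ?_⟩, ρ, fun x hx => ?_⟩
  · by_cases h : x ∈ S
    · rw [indicator_of_mem h]; exact (hM x).trans (le_abs_self M)
    · rw [indicator_of_notMem h, norm_zero]; exact abs_nonneg M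
  · by_cases h : x ∈ S
    · rw [indicator_of_mem h]; exact hρ x hx
    · rw [indicator_of_notMem h]

theorem bb_smul {n : ℕ} {g : E n → ℂ} (hg : BB g) (c : ℂ) : BB (fun x => c * g x) := by
  obtain ⟨hm, ⟨M, hM⟩, ρ, hρ⟩ := hg
  refine ⟨hm.const_mul c, ⟨‖c‖ * M, fun x => ?_⟩, ρ, fun x hx => ?_⟩
  · rw [norm_mul]; exact mul_le_mul_of_nonneg_left (hM x) (norm_nonneg _)
  · simp only [hρ x hx, mul_zero]

theorem fm_int {n : ℕ} {μ : Measure (E n)} (hμ : Dim n μ) {g : E n → ℂ} (hg : BB g) (ξ : E n) :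
    Integrable (fun x => g x * cexp (((2 * Real.pi * ⟪x, ξ⟫ : ℝ) : ℂ) * I)) μ := by
  refine (bb_int hμ hg).mul_bdd (c := 1) ?_ (Eventually.of_forall fun x => ?_)
  · apply Continuous.aestronglyMeasurable
    fun_prop
  · rw [Complex.norm_exp_ofReal_mul_I]

theorem fm_le {n : ℕ} (μ : Measure (E n)) (g : E n → ℂ) (ξ : E n) :
    ‖Fm g μ ξ‖ₑ ≤ ∫⁻ x, ‖g x‖ₑ ∂μ := by
  unfold Fm
  refine (enorm_integral_le_lintegral_enorm _).trans (le_of_eq (lintegral_congr fun x => ?_))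
  have h1 : ‖cexp (((2 * Real.pi * ⟪x, ξ⟫ : ℝ) : ℂ) * I)‖ₑ = 1 := by
    rw [← ofReal_norm, Complex.norm_exp_ofReal_mul_I, ENNReal.ofReal_one]
  rw [enorm_mul, h1, mul_one]

theorem fm_sum {n : ℕ} {μ : Measure (E n)} (hμ : Dim n μ) {ι : Type} (s : Finset ι)
    (G : ι → E n → ℂ) (hG : ∀ i ∈ s, BB (G i)) (ξ : E n) :
    Fm (fun x => ∑ i ∈ s, G i x) μ ξ = ∑ i ∈ s, Fm (G i) μ ξ := by
  unfold Fm
  rw [← integral_finsetSum _ fun i hi => fm_int hμ (hG i hi) ξ]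
  exact integral_congr_ae (Eventually.of_forall fun x => by simp only [Finset.sum_mul])

theorem fm_smul {n : ℕ} (μ : Measure (E n)) (g : E n → ℂ) (c : ℂ) (ξ : E n) :
    Fm (fun x => c * g x) μ ξ = c * Fm g μ ξ := by
  unfold Fm
  rw [← integral_const_mul]
  exact integral_congr_ae (Eventually.of_forall fun x => by simp only; ring)

theorem en_smul {n : ℕ} (ψ : ℝ → ℝ) (A : ℝ) (μ : Measure (E n)) (g : E n → ℂ) (c : ℂ) :
    En ψ A μ (fun x => c * g x) = ‖c‖ₑ ^ (2 : ℝ) * En ψ A μ g := by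
  unfold En
  rw [← lintegral_const_mul' _ _ (ENNReal.rpow_ne_top_of_nonneg (by norm_num) enorm_ne_top)]
  refine lintegral_congr fun ξ => ?_
  rw [Hd_eq, Hd_eq, fm_smul, ← ENNReal.mul_rpow_of_nonneg _ _ (by norm_num), ← enorm_mul]
  congr 2
  ring

theorem enorm_sum_le {ι : Type} (s : Finset ι) (a : ι → ℂ) :
    ‖∑ i ∈ s, a i‖ₑ ^ (2 : ℝ) ≤ (s.card : ℝ≥0∞) * ∑ i ∈ s, ‖a i‖ₑ ^ (2 : ℝ) := by
  have h1 : ‖∑ i ∈ s, a i‖ₑ ≤ ∑ i ∈ s, ‖a i‖ₑ := by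
    classical
    induction s using Finset.induction_on with
    | empty => simp
    | insert i s hi ih =>
      rw [Finset.sum_insert hi, Finset.sum_insert hi]
      exact (enorm_add_le _ _).trans (add_le_add le_rfl ih)
  refine (ENNReal.rpow_le_rpow h1 (by norm_num)).trans ?_
  have h2 := ENNReal.rpow_sum_le_const_mul_sum_rpow s (fun i => ‖a i‖ₑ) (p := 2) (by norm_num)
  refine h2.trans (le_of_eq ?_)
  norm_num

theorem hd_meas {n : ℕ} {ψ : ℝ → ℝ} (hψ : Bump ψ) (A : ℝ) {μ : Measure (E n)} (hμ : Dim n μ)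
    {g : E n → ℂ} (hg : BB g) : Measurable (Hd ψ A (fun _ => 1) g μ) := by
  obtain ⟨hm, ⟨M, hM⟩, ρ, hρ⟩ := hg
  have hfin : IsFiniteMeasure (μ.restrict (closedBall 0 ρ)) :=
    ⟨by rw [Measure.restrict_apply_univ]; exact ball_fin hμ ρ⟩
  have e1 : Hd ψ A (fun _ => 1) g μ = fun ξ => mu ψ A 1 ξ *
      ∫ x in closedBall (0 : E n) ρ, g x * cexp (((2 * Real.pi * ⟪x, ξ⟫ : ℝ) : ℂ) * I) ∂μ := by
    funext ξ
    rw [Hd_eq]
    congr 1
    unfold Fm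
    exact (setIntegral_eq_integral_of_forall_compl_eq_zero fun x hx => by
      rw [hρ x hx, zero_mul]).symm
  rw [e1]
  have h2 : Measurable fun z : E n × E n => g z.2 *
      cexp (((2 * Real.pi * ⟪z.2, z.1⟫ : ℝ) : ℂ) * I) := by
    have h1 : Continuous fun z : E n × E n => cexp (((2 * Real.pi * ⟪z.2, z.1⟫ : ℝ) : ℂ) * I) := by
      fun_prop
    exact (hm.comp measurable_snd).mul h1.measurable
  exact (Pool.Agent.Y248.BA.mu_cont hψ A 1).measurable.mul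
    (h2.stronglyMeasurable.integral_prod_right' (ν := μ.restrict (closedBall 0 ρ))).measurable

theorem en_sum {n : ℕ} {ψ : ℝ → ℝ} (hψ : Bump ψ) (A : ℝ) {μ : Measure (E n)} (hμ : Dim n μ)
    {ι : Type} (s : Finset ι) (G : ι → E n → ℂ) (hG : ∀ i ∈ s, BB (G i)) :
    En ψ A μ (fun x => ∑ i ∈ s, G i x) ≤ (s.card : ℝ≥0∞) * ∑ i ∈ s, En ψ A μ (G i) := by
  unfold En
  rw [← lintegral_finsetSum _ fun i hi => ((hd_meas hψ A hμ (hG i hi)).enorm.pow_const _),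
    ← lintegral_const_mul' _ _ (ENNReal.natCast_ne_top _)]
  refine lintegral_mono fun ξ => ?_
  have h1 : Hd ψ A (fun _ => 1) (fun x => ∑ i ∈ s, G i x) μ ξ =
      ∑ i ∈ s, Hd ψ A (fun _ => 1) (G i) μ ξ := by
    rw [Hd_eq, fm_sum hμ s G hG, Finset.mul_sum]
    exact Finset.sum_congr rfl fun i _ => (Hd_eq _ _ _ _ _).symm
  rw [h1]
  exact enorm_sum_le s _

/-- the trivial bound -/
theorem bd_a (n : ℕ) (hn : 2 ≤ n) {ψ : ℝ → ℝ} (hψ : Bump ψ) : ∃ C : ℝ, 0 < C ∧ ∀ A : ℝ, 4 ≤ A →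
    ∀ (μ : Measure (E n)) (g : E n → ℂ),
      En ψ A μ g ≤ ENNReal.ofReal (C / A) * (∫⁻ x, ‖g x‖ₑ ∂μ) ^ (2 : ℝ) := by
  obtain ⟨V, hV, hVb⟩ := shell_vol n hn
  obtain ⟨B, hB, hBb⟩ := mu_bdd hψ
  refine ⟨B ^ (2 : ℝ) * V, by positivity, fun A hA μ g => ?_⟩
  have hA0 : 0 < A := by linarith
  set S : Set (E n) := {ξ : E n | 1 - 4 / A ≤ ‖ξ‖ ∧ ‖ξ‖ ≤ 1} with hS
  have hSm : MeasurableSet S :=
    (measurableSet_le measurable_const measurable_norm).inter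
      (measurableSet_le measurable_norm measurable_const)
  have h1 : ∀ ξ, ‖Hd ψ A (fun _ => 1) g μ ξ‖ₑ ^ (2 : ℝ) ≤
      S.indicator (fun _ => ENNReal.ofReal (B ^ (2 : ℝ)) * (∫⁻ x, ‖g x‖ₑ ∂μ) ^ (2 : ℝ)) ξ := by
    intro ξ
    rw [Hd_eq]
    by_cases hξ : ξ ∈ S
    · rw [indicator_of_mem hξ, enorm_mul, ENNReal.mul_rpow_of_nonneg _ _ (by norm_num)]
      refine mul_le_mul' ?_ (ENNReal.rpow_le_rpow (fm_le μ g ξ) (by norm_num))
      rw [← ofReal_norm, ENNReal.ofReal_rpow_of_nonneg (norm_nonneg _) (by norm_num)]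
      exact ENNReal.ofReal_le_ofReal
        (Real.rpow_le_rpow (norm_nonneg _) (hBb n A 1 ξ) (by norm_num))
    · rw [indicator_of_notMem hξ]
      have h2 : mu ψ A 1 ξ = 0 := by
        by_contra h
        exact hξ (mu_loc hψ hA le_rfl one_le_two ξ h)
      rw [h2, zero_mul, enorm_zero, ENNReal.zero_rpow_of_pos (by norm_num)]
  have h2 := hVb A 1 (by linarith) le_rfl one_le_two
  calc En ψ A μ g ≤ ∫⁻ ξ, S.indicator (fun _ => ENNReal.ofReal (B ^ (2 : ℝ)) *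
        (∫⁻ x, ‖g x‖ₑ ∂μ) ^ (2 : ℝ)) ξ := lintegral_mono h1
    _ = ENNReal.ofReal (B ^ (2 : ℝ)) * (∫⁻ x, ‖g x‖ₑ ∂μ) ^ (2 : ℝ) * volume S := by
        rw [lintegral_indicator_const hSm]
    _ ≤ ENNReal.ofReal (B ^ (2 : ℝ)) * (∫⁻ x, ‖g x‖ₑ ∂μ) ^ (2 : ℝ) * ENNReal.ofReal (V / A) :=
        mul_le_mul' le_rfl h2
    _ = _ := by
        rw [mul_right_comm, ← ENNReal.ofReal_mul (by positivity), mul_div_assoc]

/-- the bound by the gain -/
theorem bd_b (n : ℕ) {ψ : ℝ → ℝ} (hψ : Bump ψ) (γ K : ℝ) (hK : 0 ≤ K) :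
    ∃ C : ℝ, 0 < C ∧ ∀ A : ℝ, 4 ≤ A → ∀ μ : Measure (E n), Gain γ K μ → ∀ g : E n → ℂ, BB g →
      En ψ A μ g ≤ ENNReal.ofReal (C * A ^ (-γ)) * ∫⁻ x, ‖g x‖ₑ ^ (2 : ℝ) ∂μ := by
  obtain ⟨B, hB, hBb⟩ := mu_bdd hψ
  refine ⟨B ^ (2 : ℝ) * K * 2 ^ γ + 1, by positivity, fun A hA μ hG g hg => ?_⟩
  have hA0 : 0 < A := by linarith
  set S : Set (E n) := {ξ : E n | |‖ξ‖ ^ 2 - 1| ≤ 1 / (A / 2)} with hS
  have hSm : MeasurableSet S :=
    measurableSet_le (((measurable_norm.pow_const 2).sub_const 1).abs) measurable_const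
  have h1 : ∀ ξ, ‖Hd ψ A (fun _ => 1) g μ ξ‖ₑ ^ (2 : ℝ) ≤
      S.indicator (fun ξ => ENNReal.ofReal (B ^ (2 : ℝ)) * ‖Fm g μ ξ‖ₑ ^ (2 : ℝ)) ξ := by
    intro ξ
    rw [Hd_eq]
    by_cases hξ : ξ ∈ S
    · rw [indicator_of_mem hξ, enorm_mul, ENNReal.mul_rpow_of_nonneg _ _ (by norm_num)]
      refine mul_le_mul' ?_ le_rfl
      rw [← ofReal_norm, ENNReal.ofReal_rpow_of_nonneg (norm_nonneg _) (by norm_num)]
      exact ENNReal.ofReal_le_ofReal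
        (Real.rpow_le_rpow (norm_nonneg _) (hBb n A 1 ξ) (by norm_num))
    · rw [indicator_of_notMem hξ]
      have h2 : mu ψ A 1 ξ = 0 := by
        by_contra h
        apply hξ
        obtain ⟨h3, h4⟩ := mu_supp hψ hA0 one_pos ξ h
        rw [one_pow, one_mul] at h3 h4
        have h5 : 0 < 1 / (2 * A) := by positivity
        have h6 : 1 / (A / 2) = 2 / A := by field_simp
        change |‖ξ‖ ^ 2 - 1| ≤ 1 / (A / 2)
        rw [h6, abs_le]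
        constructor <;> linarith [show 0 < 2 / A by positivity]
      rw [h2, zero_mul, enorm_zero, ENNReal.zero_rpow_of_pos (by norm_num)]
  have h2 := hG (A / 2) (by linarith) g hg
  calc En ψ A μ g ≤ ∫⁻ ξ, S.indicator (fun ξ => ENNReal.ofReal (B ^ (2 : ℝ)) *
        ‖Fm g μ ξ‖ₑ ^ (2 : ℝ)) ξ := lintegral_mono h1
    _ = ENNReal.ofReal (B ^ (2 : ℝ)) * ∫⁻ ξ in S, ‖Fm g μ ξ‖ₑ ^ (2 : ℝ) := by
        rw [lintegral_indicator hSm, lintegral_const_mul' _ _ ENNReal.ofReal_ne_top]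
    _ ≤ ENNReal.ofReal (B ^ (2 : ℝ)) * (ENNReal.ofReal (K * (A / 2) ^ (-γ)) *
          ∫⁻ x, ‖g x‖ₑ ^ (2 : ℝ) ∂μ) := mul_le_mul' le_rfl h2
    _ ≤ _ := by
        rw [← mul_assoc, ← ENNReal.ofReal_mul (by positivity)]
        refine mul_le_mul' (ENNReal.ofReal_le_ofReal ?_) le_rfl
        have h3 : (A / 2) ^ (-γ) = 2 ^ γ * A ^ (-γ) := by
          rw [Real.div_rpow hA0.le (by norm_num), Real.rpow_neg (show (0:ℝ) ≤ 2 by norm_num),
            div_inv_eq_mul, mul_comm]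
        have h4 : 0 < A ^ (-γ) := by positivity
        rw [h3]
        nlinarith

end Pool.Agent.Y350.FC
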