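import Mathlib
import Pool.Agent.Y350.FC.Bas
set_option autoImplicit false

/-! # Project FC: the energy estimate by level sets -/

namespace Pool.Agent.Y350.FC

open MeasureTheory Set Metric Complex Filter
open scoped ENNReal RealInnerProductSpace Topology FourierTransform
open Pool.Agent.H789R2.FR (E sg T)
open Pool.Agent.H438R2.RZ (Bump)
open Pool.Agent.Y248.BA (mu Kr Tp mu_bdd mu_supp mu_loc shell_vol)
open Pool.Agent.Y248.FB Pool.Agent.Y248.FC

/-- the three bounds for a function of height `2 t` carried by a set of size `t ^ (-p')` -/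
theorem real_claim (n : ℕ) (hn : 2 ≤ n) (γ p C₀ : ℝ) (hγ1 : γ ≤ 1) (hp : 2 < p)
    (hC₀ : 0 < C₀) : ∃ C : ℝ, 0 < C ∧ ∀ A : ℝ, 4 ≤ A → ∀ t : ℝ, 0 < t →
      C₀ / A * (2 * t * t ^ (-(p / (p - 1)))) ^ (2 : ℝ) ≤ C * A ^ (-th n γ p) ∨
      C₀ * A ^ (-γ) * (4 * t ^ 2 * t ^ (-(p / (p - 1)))) ≤ C * A ^ (-th n γ p) ∨
      ∃ l : ℝ, 3 ≤ l ∧ l ≤ A ∧ C₀ / A * l ^ (-kap n) * (2 * t * t ^ (-(p / (p - 1)))) ^ (2 : ℝ) +
        C₀ / A * l ^ (1 - γ) * (4 * t ^ 2 * t ^ (-(p / (p - 1)))) ≤ C * A ^ (-th n γ p) := by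
  have hn' : (2 : ℝ) ≤ n := by exact_mod_cast hn
  have hp0 : 0 < p := by linarith
  have hp1 : 0 < p - 1 := by linarith
  set s : ℝ := p / (p - 1) with hs
  have hs0 : 0 < s := by positivity
  obtain ⟨D, hD⟩ : ∃ D : ℝ, D = kap n + 1 - γ := ⟨_, rfl⟩
  have hk : 0 < kap n := by unfold kap; linarith
  have hD0 : 0 < D := by rw [hD]; linarith
  obtain ⟨β, hβ⟩ : ∃ β : ℝ, β = D * (1 - 2 / p) := ⟨_, rfl⟩
  have h2p : 2 / p < 1 := by rw [div_lt_one hp0]; exact hp
  have hβ0 : 0 ≤ β := by rw [hβ]; exact mul_nonneg hD0.le (by linarith)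
  have hth : th n γ p = min 1 (γ + β) := by
    unfold th
    congr 2
    rw [hβ, hD]
    unfold kap
    ring
  have hth1 : th n γ p ≤ 1 := by rw [hth]; exact min_le_left _ _
  have hth2 : th n γ p ≤ γ + β := by rw [hth]; exact min_le_right _ _
  have hth3 : 1 - γ - β ≤ 1 - th n γ p := by linarith
  set τ := th n γ p with hτ
  have h3 : (1 : ℝ) ≤ 3 ^ (2 * D / p) := Real.one_le_rpow (by norm_num) (by positivity)
  refine ⟨8 * C₀ * 3 ^ (2 * D / p), by positivity, fun A hA t ht => ?_⟩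
  have hA0 : 0 < A := by linarith
  have hA1 : 1 ≤ A := by linarith
  obtain ⟨l, hl⟩ : ∃ l : ℝ, l = t ^ (-s / D) := ⟨_, rfl⟩
  have hl0 : 0 < l := by rw [hl]; positivity
  have htl : t = l ^ (-D / s) := by
    rw [hl, ← Real.rpow_mul ht.le]
    have : -s / D * (-D / s) = 1 := by field_simp
    rw [this, Real.rpow_one]
  have e1 : t ^ (-s) = l ^ D := by
    rw [hl, ← Real.rpow_mul ht.le]
    congr 1
    field_simp
  have hs2 : 2 / s = 2 - 2 / p := by rw [hs]; field_simp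
  have e2 : t ^ 2 = l ^ (-(D * (2 - 2 / p))) := by
    rw [htl, ← Real.rpow_natCast, ← Real.rpow_mul hl0.le, ← hs2]
    congr 1
    push_cast
    field_simp
  have e3 : (2 * t * t ^ (-s)) ^ (2 : ℝ) = 4 * l ^ (2 * D / p) := by
    have h4 : (2 * t * t ^ (-s)) ^ (2 : ℝ) = 4 * (t ^ 2 * (t ^ (-s)) ^ 2) := by
      rw [show (2 : ℝ) = ((2 : ℕ) : ℝ) by norm_num, Real.rpow_natCast]
      push_cast
      ring
    rw [h4, e2, e1, ← Real.rpow_natCast (l ^ D), ← Real.rpow_mul hl0.le, ← Real.rpow_add hl0]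
    congr 2
    push_cast
    ring
  have e4 : 4 * t ^ 2 * t ^ (-s) = 4 * l ^ (-β) := by
    rw [mul_assoc, e2, e1, ← Real.rpow_add hl0, hβ]
    congr 2
    ring
  rw [e3, e4]
  have hAτ : A⁻¹ ≤ A ^ (-τ) := by
    rw [← Real.rpow_neg_one]
    exact Real.rpow_le_rpow_of_exponent_le hA1 (by linarith)
  have hAp : 0 < A ^ (-τ) := by positivity
  rcases le_total l 3 with h | h
  · left
    have h5 : l ^ (2 * D / p) ≤ 3 ^ (2 * D / p) := Real.rpow_le_rpow hl0.le h (by positivity)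
    calc C₀ / A * (4 * l ^ (2 * D / p)) = 4 * C₀ * l ^ (2 * D / p) * A⁻¹ := by ring
      _ ≤ 4 * C₀ * 3 ^ (2 * D / p) * A ^ (-τ) := by gcongr
      _ ≤ _ := by
        have : 0 < C₀ * 3 ^ (2 * D / p) * A ^ (-τ) := by positivity
        nlinarith
  · rcases le_total l A with h' | h'
    · right; right
      refine ⟨l, h, h', ?_⟩
      have e5 : l ^ (-kap n) * l ^ (2 * D / p) = l ^ (1 - γ - β) := by
        rw [← Real.rpow_add hl0, hβ, hD]
        congr 1
        ring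
      have e6 : l ^ (1 - γ) * l ^ (-β) = l ^ (1 - γ - β) := by
        rw [← Real.rpow_add hl0]
        congr 1
      have h6 : l ^ (1 - γ - β) ≤ A ^ (1 - τ) :=
        (Real.rpow_le_rpow_of_exponent_le (by linarith) hth3).trans
          (Real.rpow_le_rpow hl0.le h' (by linarith))
      have h7 : A⁻¹ * A ^ (1 - τ) = A ^ (-τ) := by
        rw [← Real.rpow_neg_one, ← Real.rpow_add hA0]
        congr 1
        ring
      calc C₀ / A * l ^ (-kap n) * (4 * l ^ (2 * D / p)) + C₀ / A * l ^ (1 - γ) * (4 * l ^ (-β)) =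
          4 * C₀ * A⁻¹ * (l ^ (-kap n) * l ^ (2 * D / p)) +
            4 * C₀ * A⁻¹ * (l ^ (1 - γ) * l ^ (-β)) := by ring
        _ = 8 * C₀ * (A⁻¹ * l ^ (1 - γ - β)) := by rw [e5, e6]; ring
        _ ≤ 8 * C₀ * (A⁻¹ * A ^ (1 - τ)) := by gcongr
        _ = 8 * C₀ * 1 * A ^ (-τ) := by rw [h7]; ring
        _ ≤ _ := by gcongr
    · right; left
      have h6 : l ^ (-β) ≤ A ^ (-β) :=
        Real.rpow_le_rpow_of_nonpos hA0 h' (by linarith)
      have h7 : A ^ (-γ) * A ^ (-β) ≤ A ^ (-τ) := by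
        rw [← Real.rpow_add hA0]
        exact Real.rpow_le_rpow_of_exponent_le hA1 (by linarith)
      calc C₀ * A ^ (-γ) * (4 * l ^ (-β)) ≤ C₀ * A ^ (-γ) * (4 * A ^ (-β)) := by gcongr
        _ = 4 * C₀ * (A ^ (-γ) * A ^ (-β)) := by ring
        _ ≤ 4 * C₀ * A ^ (-τ) := by gcongr
        _ ≤ _ := by
          have : 0 < C₀ * A ^ (-τ) := by positivity
          nlinarith

/-- the set on which a level piece lives -/
def lev {n : ℕ} (g : E n → ℂ) (j : ℕ) : Set (E n) :=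
  {x | (1 / 2 : ℝ) ^ (j + 1) ≤ ‖g x‖ ∧ ‖g x‖ < (1 / 2 : ℝ) ^ j}

theorem lev_meas {n : ℕ} {g : E n → ℂ} (hg : Measurable g) (j : ℕ) : MeasurableSet (lev g j) :=
  (measurableSet_le measurable_const hg.norm).inter (measurableSet_lt hg.norm measurable_const)

/-- the pieces -/
noncomputable def pcs {n : ℕ} (g : E n → ℂ) (M : ℕ) : ℕ → E n → ℂ
  | 0 => {x | 1 ≤ ‖g x‖}.indicator g
  | 1 => {x | ‖g x‖ < (1 / 2 : ℝ) ^ M}.indicator g
  | (j + 2) => (lev g j).indicator g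

theorem pcs_sum {n : ℕ} (g : E n → ℂ) (M : ℕ) (x : E n) :
    ∑ i ∈ Finset.range (M + 2), pcs g M i x = g x := by
  rw [Finset.sum_range_succ', Finset.sum_range_succ']
  simp only [pcs]
  induction M with
  | zero =>
    rw [Finset.sum_range_zero, zero_add, pow_zero]
    by_cases h : 1 ≤ ‖g x‖
    · rw [indicator_of_mem (show x ∈ {x | 1 ≤ ‖g x‖} from h),
        indicator_of_notMem (show x ∉ {x | ‖g x‖ < 1} from not_lt.2 h), zero_add]
    · rw [indicator_of_notMem (show x ∉ {x | 1 ≤ ‖g x‖} from h),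
        indicator_of_mem (show x ∈ {x | ‖g x‖ < 1} from not_le.1 h), add_zero]
  | succ M ih =>
    have h1 : {x | ‖g x‖ < (1 / 2 : ℝ) ^ M}.indicator g x = (lev g M).indicator g x +
        {x | ‖g x‖ < (1 / 2 : ℝ) ^ (M + 1)}.indicator g x := by
      have h2 : (1 / 2 : ℝ) ^ (M + 1) ≤ (1 / 2 : ℝ) ^ M :=
        pow_le_pow_of_le_one (by norm_num) (by norm_num) (Nat.le_succ M)
      by_cases h3 : ‖g x‖ < (1 / 2 : ℝ) ^ (M + 1)
      · rw [indicator_of_mem (show x ∈ {x | ‖g x‖ < (1 / 2 : ℝ) ^ M} from h3.trans_le h2),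
          indicator_of_mem (show x ∈ {x | ‖g x‖ < (1 / 2 : ℝ) ^ (M + 1)} from h3),
          indicator_of_notMem (show x ∉ lev g M from fun h => absurd h.1 (not_le.2 h3)), zero_add]
      · rw [indicator_of_notMem (show x ∉ {x | ‖g x‖ < (1 / 2 : ℝ) ^ (M + 1)} from h3), add_zero]
        by_cases h4 : ‖g x‖ < (1 / 2 : ℝ) ^ M
        · rw [indicator_of_mem (show x ∈ {x | ‖g x‖ < (1 / 2 : ℝ) ^ M} from h4),
            indicator_of_mem (show x ∈ lev g M from ⟨not_lt.1 h3, h4⟩)]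
        · rw [indicator_of_notMem (show x ∉ {x | ‖g x‖ < (1 / 2 : ℝ) ^ M} from h4),
            indicator_of_notMem (show x ∉ lev g M from fun h => h4 h.2)]
    rw [Finset.sum_range_succ, add_assoc (∑ j ∈ Finset.range M, _), ← h1]
    exact ih

theorem pcs_bb {n : ℕ} {g : E n → ℂ} (hg : BB g) (M i : ℕ) : BB (pcs g M i) := by
  match i with
  | 0 => exact bb_ind hg (measurableSet_le measurable_const hg.1.norm)
  | 1 => exact bb_ind hg (measurableSet_lt hg.1.norm measurable_const)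
  | (j + 2) => exact bb_ind hg (lev_meas hg.1 j)

/-- number of pieces -/
theorem num_pcs (s ε : ℝ) (hs1 : s < 2) (hε : 0 < ε) : ∃ C : ℝ, 0 < C ∧ ∀ A : ℝ,
    4 ≤ A → ∃ M : ℕ, ((1 / 2 : ℝ) ^ M) ^ (2 - s) ≤ A⁻¹ ∧ ((M : ℝ) + 2) ^ 2 ≤ C * A ^ ε := by
  have h2s : 0 < 2 - s := by linarith
  have hl2 : 0 < Real.log 2 := Real.log_pos (by norm_num)
  set c : ℝ := 2 / (ε * (Real.log 2 * (2 - s))) + 3 with hc
  refine ⟨c ^ 2, by positivity, fun A hA => ?_⟩
  have hA0 : 0 < A := by linarith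
  have hlA : 0 ≤ Real.log A := Real.log_nonneg (by linarith)
  refine ⟨⌈Real.log A / (Real.log 2 * (2 - s))⌉₊, ?_, ?_⟩
  · set M := ⌈Real.log A / (Real.log 2 * (2 - s))⌉₊ with hM
    have h1 : Real.log A / (Real.log 2 * (2 - s)) ≤ M := Nat.le_ceil _
    rw [div_le_iff₀ (by positivity)] at h1
    rw [← Real.rpow_natCast, ← Real.rpow_mul (by norm_num), one_div, Real.inv_rpow (by norm_num)]
    refine inv_anti₀ hA0 ?_
    rw [← Real.log_le_log_iff hA0 (by positivity), Real.log_rpow (by norm_num)]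
    linarith
  · set M := ⌈Real.log A / (Real.log 2 * (2 - s))⌉₊ with hM
    have h1 : (M : ℝ) < Real.log A / (Real.log 2 * (2 - s)) + 1 := Nat.ceil_lt_add_one (by positivity)
    have h2 : Real.log A ≤ A ^ (ε / 2) / (ε / 2) := Real.log_le_rpow_div hA0.le (by positivity)
    have h3 : (1 : ℝ) ≤ A ^ (ε / 2) := Real.one_le_rpow (by linarith) (by positivity)
    have h4 : (M : ℝ) + 2 ≤ c * A ^ (ε / 2) := by
      have h5 : Real.log A / (Real.log 2 * (2 - s)) ≤
          (A ^ (ε / 2) / (ε / 2)) / (Real.log 2 * (2 - s)) := by gcongr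
      have h6 : (A ^ (ε / 2) / (ε / 2)) / (Real.log 2 * (2 - s)) =
          2 / (ε * (Real.log 2 * (2 - s))) * A ^ (ε / 2) := by
        field_simp
      rw [hc, add_mul]
      linarith
    calc ((M : ℝ) + 2) ^ 2 ≤ (c * A ^ (ε / 2)) ^ 2 := by gcongr
      _ = c ^ 2 * A ^ ε := by
        rw [mul_pow, ← Real.rpow_natCast (A ^ (ε / 2)), ← Real.rpow_mul hA0.le]
        congr 2
        push_cast
        ring

/-- the estimate for normalised functions -/
theorem ge_norm (n : ℕ) (hn : 2 ≤ n) (h : S_SP n) {ψ : ℝ → ℝ} (hψ : Bump ψ) (γ K p ε : ℝ)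
    (hγ0 : 0 ≤ γ) (hγ1 : γ ≤ 1) (hK : 0 ≤ K) (hp : 2 < p) (hε : 0 < ε) :
    ∃ C : ℝ, 0 < C ∧ ∀ μ : Measure (E n), Dim n μ → Gain γ K μ → ∀ A : ℝ, 4 ≤ A →
      ∀ g : E n → ℂ, BB g → ∫⁻ x, ‖g x‖ₑ ^ (p / (p - 1)) ∂μ ≤ 1 →
        En ψ A μ g ≤ ENNReal.ofReal (C * A ^ (-th n γ p + ε)) := by
  have hp0 : 0 < p := by linarith
  have hp1 : 0 < p - 1 := by linarith
  set s : ℝ := p / (p - 1) with hs
  have hs0 : 0 < s := by positivity
  have hs1 : 1 ≤ s := by rw [hs, le_div_iff₀ hp1]; linarith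
  have hs2 : s < 2 := by rw [hs, div_lt_iff₀ hp1]; linarith
  obtain ⟨C1, hC1, ha⟩ := bd_a n hn hψ
  obtain ⟨C2, hC2, hb⟩ := bd_b n hψ γ K hK
  obtain ⟨C3, hC3, hc⟩ := h ψ hψ γ K hγ0 hγ1 hK
  obtain ⟨C₀, hC₀⟩ : ∃ C₀ : ℝ, C₀ = C1 + C2 + C3 := ⟨_, rfl⟩
  have hC₀0 : 0 < C₀ := by rw [hC₀]; positivity
  obtain ⟨C4, hC4, hreal⟩ := real_claim n hn γ p C₀ hγ1 hp hC₀0
  obtain ⟨C5, hC5, hnum⟩ := num_pcs s ε hs2 hε
  have hth1 : th n γ p ≤ 1 := min_le_left _ _
  refine ⟨(C4 + C₀) * C5, by positivity, fun μ hμ hG A hA g hg hg1 => ?_⟩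
  have hA0 : 0 < A := by linarith
  have hA1 : 1 ≤ A := by linarith
  set τ := th n γ p with hτ
  have hAτ : A⁻¹ ≤ A ^ (-τ) := by
    rw [← Real.rpow_neg_one]
    exact Real.rpow_le_rpow_of_exponent_le hA1 (by linarith)
  obtain ⟨M, hM1, hM2⟩ := hnum A hA
  -- bounds with a common constant
  have ha' : ∀ f : E n → ℂ, En ψ A μ f ≤
      ENNReal.ofReal (C₀ / A) * (∫⁻ x, ‖f x‖ₑ ∂μ) ^ (2 : ℝ) := fun f =>
    (ha A hA μ f).trans (mul_le_mul' (ENNReal.ofReal_le_ofReal (by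
      gcongr; rw [hC₀]; linarith)) le_rfl)
  have hb' : ∀ f : E n → ℂ, BB f → En ψ A μ f ≤
      ENNReal.ofReal (C₀ * A ^ (-γ)) * ∫⁻ x, ‖f x‖ₑ ^ (2 : ℝ) ∂μ := fun f hf =>
    (hb A hA μ hG f hf).trans (mul_le_mul' (ENNReal.ofReal_le_ofReal (by
      gcongr; rw [hC₀]; linarith)) le_rfl)
  have hc' : ∀ f : E n → ℂ, BB f → ∀ l : ℝ, 3 ≤ l → l ≤ A → En ψ A μ f ≤
      ENNReal.ofReal (C₀ / A * l ^ (-kap n)) * (∫⁻ x, ‖f x‖ₑ ∂μ) ^ (2 : ℝ) +
      ENNReal.ofReal (C₀ / A * l ^ (1 - γ)) * ∫⁻ x, ‖f x‖ₑ ^ (2 : ℝ) ∂μ := by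
    intro f hf l hl1 hl2
    have hl0 : 0 < l := by linarith
    have hCC : C3 ≤ C₀ := by rw [hC₀]; linarith
    exact (hc μ hμ hG A hA l hl1 hl2 f hf).trans (add_le_add
      (mul_le_mul' (ENNReal.ofReal_le_ofReal (by gcongr)) le_rfl)
      (mul_le_mul' (ENNReal.ofReal_le_ofReal (by gcongr)) le_rfl))
  -- the level pieces
  have claim : ∀ (f : E n → ℂ), BB f → ∀ t : ℝ, 0 < t → (∀ x, ‖f x‖ ≤ 2 * t) → ∀ F : Set (E n),
      MeasurableSet F → (∀ x, x ∉ F → f x = 0) → μ F ≤ ENNReal.ofReal (t ^ (-s)) →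
      En ψ A μ f ≤ ENNReal.ofReal (C4 * A ^ (-τ)) := by
    intro f hf t ht hft F hFm hF hμF
    have i1 : ∫⁻ x, ‖f x‖ₑ ∂μ ≤ ENNReal.ofReal (2 * t * t ^ (-s)) := by
      calc ∫⁻ x, ‖f x‖ₑ ∂μ ≤ ∫⁻ x, F.indicator (fun _ => ENNReal.ofReal (2 * t)) x ∂μ := by
            refine lintegral_mono fun x => ?_
            by_cases hx : x ∈ F
            · rw [indicator_of_mem hx, ← ofReal_norm]
              exact ENNReal.ofReal_le_ofReal (hft x)
            · rw [indicator_of_notMem hx, hF x hx, enorm_zero]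
        _ = ENNReal.ofReal (2 * t) * μ F := lintegral_indicator_const hFm _
        _ ≤ ENNReal.ofReal (2 * t) * ENNReal.ofReal (t ^ (-s)) := mul_le_mul' le_rfl hμF
        _ = _ := by rw [← ENNReal.ofReal_mul (by positivity)]
    have i2 : ∫⁻ x, ‖f x‖ₑ ^ (2 : ℝ) ∂μ ≤ ENNReal.ofReal (4 * t ^ 2 * t ^ (-s)) := by
      calc ∫⁻ x, ‖f x‖ₑ ^ (2 : ℝ) ∂μ ≤
          ∫⁻ x, F.indicator (fun _ => ENNReal.ofReal (4 * t ^ 2)) x ∂μ := by
            refine lintegral_mono fun x => ?_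
            by_cases hx : x ∈ F
            · rw [indicator_of_mem hx, ← ofReal_norm,
                ENNReal.ofReal_rpow_of_nonneg (norm_nonneg _) (by norm_num)]
              refine ENNReal.ofReal_le_ofReal ?_
              rw [show (2 : ℝ) = ((2 : ℕ) : ℝ) by norm_num, Real.rpow_natCast]
              calc ‖f x‖ ^ 2 ≤ (2 * t) ^ 2 := by gcongr; exact hft x
                _ = 4 * t ^ 2 := by ring
            · rw [indicator_of_notMem hx, hF x hx, enorm_zero,
                ENNReal.zero_rpow_of_pos (by norm_num)]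
        _ = ENNReal.ofReal (4 * t ^ 2) * μ F := lintegral_indicator_const hFm _
        _ ≤ ENNReal.ofReal (4 * t ^ 2) * ENNReal.ofReal (t ^ (-s)) := mul_le_mul' le_rfl hμF
        _ = _ := by rw [← ENNReal.ofReal_mul (by positivity)]
    have i1' : (∫⁻ x, ‖f x‖ₑ ∂μ) ^ (2 : ℝ) ≤ ENNReal.ofReal ((2 * t * t ^ (-s)) ^ (2 : ℝ)) := by
      rw [← ENNReal.ofReal_rpow_of_nonneg (by positivity) (by norm_num)]
      exact ENNReal.rpow_le_rpow i1 (by norm_num)
    rcases hreal A hA t ht with h1 | h1 | ⟨l, hl1, hl2, h1⟩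
    · refine ((ha' f).trans (mul_le_mul' le_rfl i1')).trans ?_
      rw [← ENNReal.ofReal_mul (by positivity)]
      exact ENNReal.ofReal_le_ofReal h1
    · refine ((hb' f hf).trans (mul_le_mul' le_rfl i2)).trans ?_
      rw [← ENNReal.ofReal_mul (by positivity)]
      exact ENNReal.ofReal_le_ofReal h1
    · have hl0 : 0 < l := by linarith
      refine ((hc' f hf l hl1 hl2).trans (add_le_add (mul_le_mul' le_rfl i1')
        (mul_le_mul' le_rfl i2))).trans ?_
      rw [← ENNReal.ofReal_mul (by positivity), ← ENNReal.ofReal_mul (by positivity),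
        ← ENNReal.ofReal_add (by positivity) (by positivity)]
      exact ENNReal.ofReal_le_ofReal h1
  -- all pieces
  have hpc : ∀ i ∈ Finset.range (M + 2), En ψ A μ (pcs g M i) ≤
      ENNReal.ofReal ((C4 + C₀) * A ^ (-τ)) := by
    intro i _
    match i with
    | 0 =>
      have h1 : ∫⁻ x, ‖pcs g M 0 x‖ₑ ∂μ ≤ 1 := by
        refine le_trans (lintegral_mono fun x => ?_) hg1
        simp only [pcs]
        by_cases hx : x ∈ {x | 1 ≤ ‖g x‖}
        · rw [indicator_of_mem hx]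
          have h2 : 1 ≤ ‖g x‖ₑ := by
            rw [← ofReal_norm, ← ENNReal.ofReal_one]
            exact ENNReal.ofReal_le_ofReal hx
          calc ‖g x‖ₑ = ‖g x‖ₑ ^ (1 : ℝ) := (ENNReal.rpow_one _).symm
            _ ≤ _ := ENNReal.rpow_le_rpow_of_exponent_le h2 hs1
        · rw [indicator_of_notMem hx, enorm_zero]
          exact zero_le
      calc En ψ A μ (pcs g M 0) ≤ ENNReal.ofReal (C₀ / A) *
            (∫⁻ x, ‖pcs g M 0 x‖ₑ ∂μ) ^ (2 : ℝ) := ha' _
        _ ≤ ENNReal.ofReal (C₀ / A) * 1 := by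
            refine mul_le_mul' le_rfl ?_
            calc (∫⁻ x, ‖pcs g M 0 x‖ₑ ∂μ) ^ (2 : ℝ) ≤ 1 ^ (2 : ℝ) :=
                  ENNReal.rpow_le_rpow h1 (by norm_num)
              _ = 1 := ENNReal.one_rpow _
        _ ≤ _ := by
            rw [mul_one]
            refine ENNReal.ofReal_le_ofReal ?_
            rw [div_eq_mul_inv, add_mul]
            have h3 : C₀ * A⁻¹ ≤ C₀ * A ^ (-τ) := by gcongr
            have h4 : 0 < C4 * A ^ (-τ) := by positivity
            linarith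
    | 1 =>
      have h1 : ∫⁻ x, ‖pcs g M 1 x‖ₑ ^ (2 : ℝ) ∂μ ≤ ENNReal.ofReal A⁻¹ := by
        calc ∫⁻ x, ‖pcs g M 1 x‖ₑ ^ (2 : ℝ) ∂μ ≤
            ∫⁻ x, ENNReal.ofReal A⁻¹ * ‖g x‖ₑ ^ s ∂μ := by
              refine lintegral_mono fun x => ?_
              simp only [pcs]
              by_cases hx : x ∈ {x | ‖g x‖ < (1 / 2 : ℝ) ^ M}
              · rw [indicator_of_mem hx]
                have e1 : ‖g x‖ₑ ^ (2 : ℝ) = ‖g x‖ₑ ^ (2 - s) * ‖g x‖ₑ ^ s := by
                  rw [← ENNReal.rpow_add_of_nonneg _ _ (by linarith) (by linarith)]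
                  congr 1
                  ring
                rw [e1]
                refine mul_le_mul' ?_ le_rfl
                rw [← ofReal_norm, ENNReal.ofReal_rpow_of_nonneg (norm_nonneg _) (by linarith)]
                refine ENNReal.ofReal_le_ofReal (le_trans ?_ hM1)
                exact Real.rpow_le_rpow (norm_nonneg _) (le_of_lt hx) (by linarith)
              · rw [indicator_of_notMem hx, enorm_zero, ENNReal.zero_rpow_of_pos (by norm_num)]
                exact zero_le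
          _ = ENNReal.ofReal A⁻¹ * ∫⁻ x, ‖g x‖ₑ ^ s ∂μ :=
              lintegral_const_mul' _ _ ENNReal.ofReal_ne_top
          _ ≤ ENNReal.ofReal A⁻¹ * 1 := mul_le_mul' le_rfl hg1
          _ = _ := mul_one _
      calc En ψ A μ (pcs g M 1) ≤ ENNReal.ofReal (C₀ * A ^ (-γ)) *
            ∫⁻ x, ‖pcs g M 1 x‖ₑ ^ (2 : ℝ) ∂μ := hb' _ (pcs_bb hg M 1)
        _ ≤ ENNReal.ofReal (C₀ * A ^ (-γ)) * ENNReal.ofReal A⁻¹ := mul_le_mul' le_rfl h1
        _ ≤ _ := by
            rw [← ENNReal.ofReal_mul (by positivity)]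
            refine ENNReal.ofReal_le_ofReal ?_
            have h3 : A ^ (-γ) ≤ 1 := Real.rpow_le_one_of_one_le_of_nonpos hA1 (by linarith)
            have h4 : 0 < C4 * A ^ (-τ) := by positivity
            calc C₀ * A ^ (-γ) * A⁻¹ ≤ C₀ * 1 * A ^ (-τ) := by gcongr
              _ ≤ _ := by rw [add_mul]; linarith
    | (j + 2) =>
      refine (claim (pcs g M (j + 2)) (pcs_bb hg M _) ((1 / 2 : ℝ) ^ (j + 1)) (by positivity)
        ?_ {x | (1 / 2 : ℝ) ^ (j + 1) ≤ ‖g x‖} (measurableSet_le measurable_const hg.1.norm)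
        ?_ ?_).trans ?_
      · intro x
        simp only [pcs]
        by_cases hx : x ∈ lev g j
        · rw [indicator_of_mem hx]
          refine hx.2.le.trans (le_of_eq ?_)
          rw [pow_succ]; ring
        · rw [indicator_of_notMem hx, norm_zero]; positivity
      · intro x hx
        simp only [pcs]
        exact indicator_of_notMem (fun h => hx h.1) _
      · set t : ℝ := (1 / 2 : ℝ) ^ (j + 1) with ht
        have ht0 : 0 < t := by positivity
        have h1 := mul_meas_ge_le_lintegral₀ (μ := μ) (f := fun x => ‖g x‖ₑ ^ s)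
          (hg.1.enorm.pow_const s).aemeasurable (ENNReal.ofReal (t ^ s))
        have h2 : {x | (t : ℝ) ≤ ‖g x‖} ⊆ {x | ENNReal.ofReal (t ^ s) ≤ ‖g x‖ₑ ^ s} := by
          intro x hx
          change ENNReal.ofReal (t ^ s) ≤ ‖g x‖ₑ ^ s
          rw [← ofReal_norm, ENNReal.ofReal_rpow_of_nonneg (norm_nonneg _) hs0.le]
          exact ENNReal.ofReal_le_ofReal (Real.rpow_le_rpow ht0.le hx hs0.le)
        have h3 : ENNReal.ofReal (t ^ s) * μ {x | (t : ℝ) ≤ ‖g x‖} ≤ 1 :=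
          (mul_le_mul' le_rfl (measure_mono h2)).trans (h1.trans hg1)
        rw [Real.rpow_neg ht0.le, ENNReal.ofReal_inv_of_pos (by positivity)]
        rw [ENNReal.le_inv_iff_mul_le, mul_comm]
        exact h3
      · refine ENNReal.ofReal_le_ofReal ?_
        have : 0 < A ^ (-τ) := by positivity
        nlinarith
  have hsum := en_sum hψ A hμ (Finset.range (M + 2)) (pcs g M) (fun i _ => pcs_bb hg M i)
  have hgs : (fun x => ∑ i ∈ Finset.range (M + 2), pcs g M i x) = g := by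
    funext x; exact pcs_sum g M x
  rw [hgs, Finset.card_range] at hsum
  refine hsum.trans ?_
  refine (mul_le_mul' le_rfl (Finset.sum_le_card_nsmul _ _ _ hpc)).trans ?_
  rw [Finset.card_range, nsmul_eq_mul, ← mul_assoc, ← ENNReal.ofReal_natCast,
    ← ENNReal.ofReal_mul (by positivity), ← ENNReal.ofReal_mul (by positivity)]
  refine ENNReal.ofReal_le_ofReal ?_
  have h7 : ((M + 2 : ℕ) : ℝ) * ((M + 2 : ℕ) : ℝ) ≤ C5 * A ^ ε := by
    push_cast
    rw [← sq]; exact hM2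
  rw [Real.rpow_add hA0]
  calc ((M + 2 : ℕ) : ℝ) * ((M + 2 : ℕ) : ℝ) * ((C4 + C₀) * A ^ (-τ)) ≤
      C5 * A ^ ε * ((C4 + C₀) * A ^ (-τ)) := by gcongr
    _ = _ := by ring

theorem t_ge (n : ℕ) (hn : 2 ≤ n) : S_SP n → S_GE n := by
  intro h ψ hψ γ K p ε hγ0 hγ1 hK hp hε
  rcases hp.eq_or_lt with hp2 | hp2
  · -- `p = 2`
    obtain ⟨C, hC, hb⟩ := bd_b n hψ γ K hK
    refine ⟨C, hC, fun μ _ hG A hA g hg => ?_⟩
    have hA1 : 1 ≤ A := by linarith
    refine (hb A hA μ hG g hg).trans ?_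
    rw [← hp2, show (2 : ℝ) / (2 - 1) = 2 by norm_num, show (2 : ℝ) * (2 - 1) / 2 = 1 by norm_num,
      ENNReal.rpow_one]
    refine mul_le_mul' (ENNReal.ofReal_le_ofReal ?_) le_rfl
    have h1 : th n γ 2 = γ := by
      unfold th
      rw [sub_self, mul_zero, add_zero, min_eq_right hγ1]
    rw [h1]
    gcongr
    linarith
  · obtain ⟨C, hC, hN⟩ := ge_norm n hn h hψ γ K p ε hγ0 hγ1 hK hp2 hε
    obtain ⟨C1, hC1, ha⟩ := bd_a n hn hψ
    refine ⟨C, hC, fun μ hμ hG A hA g hg => ?_⟩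
    have hp0 : 0 < p := by linarith
    have hp1 : 0 < p - 1 := by linarith
    change En ψ A μ g ≤ _
    set s : ℝ := p / (p - 1) with hs
    have hs0 : 0 < s := by positivity
    have hs2 : 2 * (p - 1) / p = 2 / s := by rw [hs]; field_simp
    rw [hs2]
    set J : ℝ≥0∞ := ∫⁻ x, ‖g x‖ₑ ^ s ∂μ with hJ
    have hJf : J ≠ ∞ := by
      obtain ⟨hm, ⟨M, hM⟩, ρ, hρ⟩ := hg
      have h1 : J ≤ ∫⁻ x, (closedBall (0 : E n) ρ).indicator
          (fun _ => ENNReal.ofReal (|M| ^ s)) x ∂μ := by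
        refine lintegral_mono fun x => ?_
        by_cases hx : x ∈ closedBall (0 : E n) ρ
        · rw [indicator_of_mem hx, ← ofReal_norm,
            ENNReal.ofReal_rpow_of_nonneg (norm_nonneg _) hs0.le]
          exact ENNReal.ofReal_le_ofReal
            (Real.rpow_le_rpow (norm_nonneg _) ((hM x).trans (le_abs_self M)) hs0.le)
        · rw [indicator_of_notMem hx, hρ x hx, enorm_zero, ENNReal.zero_rpow_of_pos hs0]
      rw [lintegral_indicator_const isClosed_closedBall.measurableSet] at h1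
      exact (h1.trans_lt (ENNReal.mul_lt_top ENNReal.ofReal_lt_top (ball_fin hμ ρ))).ne
    rcases eq_or_ne J 0 with h0 | h0
    · have h1 : ∫⁻ x, ‖g x‖ₑ ∂μ = 0 := by
        rw [hJ, lintegral_eq_zero_iff (hg.1.enorm.pow_const s)] at h0
        rw [lintegral_eq_zero_iff hg.1.enorm]
        filter_upwards [h0] with x hx
        have hx' : ‖g x‖ₑ ^ s = 0 := hx
        rcases ENNReal.rpow_eq_zero_iff.1 hx' with h2 | h2
        · exact h2.1
        · exact absurd h2.2 (by linarith)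
      have h2 := ha A hA μ g
      rw [h1, ENNReal.zero_rpow_of_pos (by norm_num), mul_zero] at h2
      exact h2.trans zero_le
    · -- normalisation
      have hJt : 0 < J.toReal := ENNReal.toReal_pos h0 hJf
      set t : ℝ := J.toReal ^ (1 / s) with ht
      have ht0 : 0 < t := by positivity
      have hts : t ^ s = J.toReal := by
        rw [ht, ← Real.rpow_mul hJt.le, one_div_mul_cancel hs0.ne', Real.rpow_one]
      have hc1 : ‖((t⁻¹ : ℝ) : ℂ)‖ = t⁻¹ := by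
        rw [Complex.norm_real, Real.norm_of_nonneg (by positivity)]
      have hc2 : ‖((t : ℝ) : ℂ)‖ = t := by
        rw [Complex.norm_real, Real.norm_of_nonneg ht0.le]
      set g' : E n → ℂ := fun x => ((t⁻¹ : ℝ) : ℂ) * g x with hg'
      have hgg : g = fun x => ((t : ℝ) : ℂ) * g' x := by
        funext x
        rw [hg']
        simp only
        rw [← mul_assoc, ← Complex.ofReal_mul, mul_inv_cancel₀ ht0.ne', Complex.ofReal_one,
          one_mul]
      have h1 : ∫⁻ x, ‖g' x‖ₑ ^ s ∂μ ≤ 1 := by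
        have e1 : ∀ x, ‖g' x‖ₑ ^ s = ENNReal.ofReal (t⁻¹ ^ s) * ‖g x‖ₑ ^ s := by
          intro x
          rw [hg']
          simp only
          rw [enorm_mul, ENNReal.mul_rpow_of_nonneg _ _ hs0.le]
          congr 1
          rw [← ofReal_norm, hc1, ENNReal.ofReal_rpow_of_nonneg (by positivity) hs0.le]
        simp only [e1]
        rw [lintegral_const_mul' _ _ ENNReal.ofReal_ne_top, ← hJ, Real.inv_rpow ht0.le, hts,
          ENNReal.ofReal_inv_of_pos hJt, ENNReal.ofReal_toReal hJf, ENNReal.inv_mul_cancel h0 hJf]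
      have h2 := hN μ hμ hG A hA g' (bb_smul hg _) h1
      have h3 : En ψ A μ g = ‖((t : ℝ) : ℂ)‖ₑ ^ (2 : ℝ) * En ψ A μ g' := by
        conv_lhs => rw [hgg]
        exact en_smul ψ A μ g' _
      have h4 : ‖((t : ℝ) : ℂ)‖ₑ ^ (2 : ℝ) = J ^ (2 / s) := by
        rw [← ofReal_norm, hc2, ht, ← ENNReal.ofReal_rpow_of_nonneg hJt.le (by positivity),
          ENNReal.ofReal_toReal hJf, ← ENNReal.rpow_mul]
        congr 1
        ring
      rw [h3, h4, mul_comm]
      exact mul_le_mul' h2 le_rfl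

end Pool.Agent.Y350.FC
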