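import Mathlib
import Pool.Agent.Y350.FC.Bas
import Pool.Agent.H789R2.FR.Caps
set_option autoImplicit false

/-! # Project FC: averages over balls, and small pieces of shells -/

namespace Pool.Agent.Y350.FC

open MeasureTheory Set Metric Complex Filter
open scoped ENNReal RealInnerProductSpace Topology FourierTransform ComplexConjugate
open Pool.Agent.H789R2.FR (E sg T sg_finite polar cap_upper cap_meas)
open Pool.Agent.H438R2.RZ (Bump)
open Pool.Agent.Y248.BA (mu Kr Tp mu_bdd mu_supp mu_loc shell_vol mu_cont mu_int four_eq four_bdd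
  four_cont ae_unit ball_vol)
open Pool.Agent.Y248.FB Pool.Agent.Y248.FC

/-- the volume of the intersection of a thin shell and a small ball -/
theorem shell_ball (n : ℕ) (hn : 2 ≤ n) : ∃ C : ℝ, 0 < C ∧ ∀ A : ℝ, 4 ≤ A → ∀ r : ℝ, 0 < r →
    ∀ ξ : E n, (volume : Measure (E n)) ({ζ : E n | 1 - 2 / A ≤ ‖ζ‖ ∧ ‖ζ‖ ≤ 1} ∩ closedBall ξ r) ≤
      ENNReal.ofReal (C / A * r ^ (n - 1)) := by
  have := sg_finite n
  obtain ⟨C, hC, hcap⟩ := cap_upper n hn
  refine ⟨2 * C * 9 ^ (n - 1), by positivity, fun A hA r hr ξ => ?_⟩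
  have hA0 : 0 < A := by linarith
  have h2A : 2 / A ≤ 1 / 2 := by
    rw [div_le_div_iff₀ hA0 (by norm_num)]; linarith
  set S : Set (E n) := {ζ : E n | 1 - 2 / A ≤ ‖ζ‖ ∧ ‖ζ‖ ≤ 1} ∩ closedBall ξ r with hS
  have hSm : MeasurableSet S :=
    ((measurableSet_le measurable_const measurable_norm).inter
      (measurableSet_le measurable_norm measurable_const)).inter isClosed_closedBall.measurableSet
  rcases S.eq_empty_or_nonempty with h0 | ⟨ζ₀, hζ₀⟩
  · rw [h0, measure_empty]; exact zero_le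
  obtain ⟨⟨ha1, ha2⟩, ha3⟩ := hζ₀
  have ha0 : 1 / 2 ≤ ‖ζ₀‖ := by linarith
  have ha : 0 < ‖ζ₀‖ := by linarith
  set w₀ : E n := ‖ζ₀‖⁻¹ • ζ₀ with hw₀
  have hw₀1 : ‖w₀‖ = 1 := by
    rw [hw₀, norm_smul, norm_inv, norm_norm, inv_mul_cancel₀ ha.ne']
  have haw : ‖ζ₀‖ • w₀ = ζ₀ := by
    rw [hw₀, smul_smul, mul_inv_cancel₀ ha.ne', one_smul]
  set Cp : Set (E n) := {w | ‖w₀ - w‖ < 9 * r} with hCp
  have hCpm : MeasurableSet Cp := cap_meas _ _
  rw [← lintegral_indicator_one hSm, polar (by omega) _ (measurable_one.indicator hSm)]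
  have h1 : ∀ᵐ w ∂(sg n), (∫⁻ s in Ioi (0 : ℝ), ENNReal.ofReal (s ^ (n - 1)) *
      S.indicator (1 : E n → ℝ≥0∞) (s • w)) ≤ Cp.indicator (fun _ => ENNReal.ofReal (2 / A)) w := by
    filter_upwards [ae_unit n] with w hw
    calc (∫⁻ s in Ioi (0 : ℝ), ENNReal.ofReal (s ^ (n - 1)) *
        S.indicator (1 : E n → ℝ≥0∞) (s • w))
        ≤ ∫⁻ s in Icc (1 - 2 / A) 1, Cp.indicator (fun _ => (1 : ℝ≥0∞)) w := by
          rw [← lintegral_indicator measurableSet_Ioi, ← lintegral_indicator measurableSet_Icc]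
          refine lintegral_mono fun s => ?_
          by_cases hs : s ∈ Ioi (0 : ℝ)
          · rw [indicator_of_mem hs]
            have hs0 : (0 : ℝ) < s := hs
            have hnorm : ‖s • w‖ = s := by rw [norm_smul, hw, mul_one, Real.norm_of_nonneg hs0.le]
            by_cases hmem : s • w ∈ S
            · obtain ⟨⟨hb1, hb2⟩, hb3⟩ := hmem
              rw [hnorm] at hb1 hb2
              have hd : ‖ζ₀ - s • w‖ ≤ 2 * r := by
                rw [mem_closedBall, dist_eq_norm] at ha3 hb3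
                calc ‖ζ₀ - s • w‖ = ‖(ζ₀ - ξ) - (s • w - ξ)‖ := by congr 1; abel
                  _ ≤ ‖ζ₀ - ξ‖ + ‖s • w - ξ‖ := norm_sub_le _ _
                  _ ≤ 2 * r := by linarith
              have hd2 : |s - ‖ζ₀‖| ≤ 2 * r := by
                have h2 := abs_norm_sub_norm_le ζ₀ (s • w)
                rw [hnorm, abs_sub_comm] at h2
                exact h2.trans hd
              have hd3 : ‖ζ₀‖ * ‖w₀ - w‖ ≤ 4 * r := by
                calc ‖ζ₀‖ * ‖w₀ - w‖ = ‖‖ζ₀‖ • (w₀ - w)‖ := by rw [norm_smul, norm_norm]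
                  _ = ‖(ζ₀ - s • w) + (s - ‖ζ₀‖) • w‖ := by
                    congr 1
                    rw [smul_sub, haw, sub_smul]
                    abel
                  _ ≤ ‖ζ₀ - s • w‖ + ‖(s - ‖ζ₀‖) • w‖ := norm_add_le _ _
                  _ ≤ 4 * r := by
                    rw [norm_smul, hw, mul_one, Real.norm_eq_abs]
                    linarith
              have hwC : w ∈ Cp := by
                change ‖w₀ - w‖ < 9 * r
                nlinarith [norm_nonneg (w₀ - w)]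
              rw [indicator_of_mem (show s ∈ Icc (1 - 2 / A) 1 from ⟨hb1, hb2⟩),
                indicator_of_mem hwC]
              calc ENNReal.ofReal (s ^ (n - 1)) * S.indicator (1 : E n → ℝ≥0∞) (s • w) ≤
                  1 * 1 := by
                    refine mul_le_mul' ?_ (indicator_le_self' (fun _ _ => zero_le) _)
                    rw [← ENNReal.ofReal_one]
                    exact ENNReal.ofReal_le_ofReal (pow_le_one₀ hs0.le hb2)
                _ = 1 := one_mul _
            · rw [indicator_of_notMem hmem, mul_zero]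
              exact zero_le
          · rw [indicator_of_notMem hs]
            exact zero_le
      _ = Cp.indicator (fun _ => ENNReal.ofReal (2 / A)) w := by
          rw [setLIntegral_const, Real.volume_Icc]
          by_cases hw : w ∈ Cp
          · rw [indicator_of_mem hw, indicator_of_mem hw, one_mul]
            congr 1; ring
          · rw [indicator_of_notMem hw, indicator_of_notMem hw, zero_mul]
  refine (lintegral_mono_ae h1).trans ?_
  rw [lintegral_indicator_const hCpm]
  have h3 : (sg n) Cp ≤ ENNReal.ofReal (C * (9 * r) ^ (n - 1)) := by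
    have h4 := hcap (9 * r) (by positivity) w₀ hw₀1
    rw [← ENNReal.ofReal_toReal (measure_ne_top (sg n) Cp)]
    exact ENNReal.ofReal_le_ofReal h4
  refine (mul_le_mul' le_rfl h3).trans ?_
  rw [← ENNReal.ofReal_mul (by positivity)]
  refine ENNReal.ofReal_le_ofReal (le_of_eq ?_)
  rw [mul_pow]
  ring

/-- convolution -/
noncomputable def cv {n : ℕ} (k f : E n → ℂ) (ξ : E n) : ℂ := ∫ t, k t * f (ξ - t)

theorem cv_integrand {n : ℕ} {k f : E n → ℂ} (hk : Integrable k) (hf : Integrable f) :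
    Integrable (fun z : E n × E n => k z.2 * f (z.1 - z.2))
      ((volume : Measure (E n)).prod volume) :=
  hk.convolution_integrand (ContinuousLinearMap.mul ℝ ℂ) hf

theorem cv_int {n : ℕ} {k f : E n → ℂ} (hk : Integrable k) (hf : Integrable f) :
    Integrable (cv k f) :=
  (cv_integrand hk hf).integral_prod_left

theorem four_cv {n : ℕ} {k f : E n → ℂ} (hk : Integrable k) (hf : Integrable f) (w : E n) :
    𝓕 (cv k f) w = 𝓕 k w * 𝓕 f w := by
  have hprod : Integrable (fun z : E n × E n =>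
      cexp (((-2 * Real.pi * ⟪z.1, w⟫ : ℝ) : ℂ) * I) * (k z.2 * f (z.1 - z.2)))
      ((volume : Measure (E n)).prod volume) := by
    refine (cv_integrand hk hf).bdd_mul (c := 1) ?_ (Eventually.of_forall fun z => ?_)
    · apply Continuous.aestronglyMeasurable
      fun_prop
    · rw [Complex.norm_exp_ofReal_mul_I]
  rw [four_eq]
  have e1 : ∀ ξ, cexp (((-2 * Real.pi * ⟪ξ, w⟫ : ℝ) : ℂ) * I) * cv k f ξ =
      ∫ t, cexp (((-2 * Real.pi * ⟪ξ, w⟫ : ℝ) : ℂ) * I) * (k t * f (ξ - t)) := by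
    intro ξ
    unfold cv
    rw [integral_const_mul]
  simp only [e1]
  rw [integral_integral_swap hprod, four_eq k, ← integral_mul_const]
  congr 1; funext t
  rw [four_eq f]
  have e2 : ∀ ξ, cexp (((-2 * Real.pi * ⟪ξ, w⟫ : ℝ) : ℂ) * I) * (k t * f (ξ - t)) =
      (cexp (((-2 * Real.pi * ⟪t, w⟫ : ℝ) : ℂ) * I) * k t) *
        (cexp (((-2 * Real.pi * ⟪ξ - t, w⟫ : ℝ) : ℂ) * I) * f (ξ - t)) := by
    intro ξ
    have e3 : (((-2 * Real.pi * ⟪ξ, w⟫ : ℝ) : ℂ) * I) =
        (((-2 * Real.pi * ⟪t, w⟫ : ℝ) : ℂ) * I) + (((-2 * Real.pi * ⟪ξ - t, w⟫ : ℝ) : ℂ) * I) := by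
      rw [inner_sub_left]
      push_cast; ring
    rw [e3, Complex.exp_add]
    ring
  simp only [e2]
  rw [integral_const_mul]
  congr 1
  exact integral_sub_right_eq_self
    (fun ξ => cexp (((-2 * Real.pi * ⟪ξ, w⟫ : ℝ) : ℂ) * I) * f ξ) t

theorem cv_bdd {n : ℕ} {k f : E n → ℂ} (hk : Integrable k) (hk1 : ∫ t, ‖k t‖ = 1) {M : ℝ}
    (hf : ∀ ξ, ‖f ξ‖ ≤ M) (ξ : E n) : ‖cv k f ξ‖ ≤ M := by
  unfold cv
  refine (norm_integral_le_of_norm_le (hk.norm.mul_const M) (Eventually.of_forall fun t => ?_)).trans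
    (le_of_eq ?_)
  · rw [norm_mul]
    exact mul_le_mul_of_nonneg_left (hf _) (norm_nonneg _)
  · rw [integral_mul_const, hk1, one_mul]

/-- the normalised indicator of a ball -/
noncomputable def kb {n : ℕ} (r : ℝ) : E n → ℂ :=
  (closedBall (0 : E n) r).indicator fun _ =>
    ((((volume : Measure (E n)).real (closedBall (0 : E n) r))⁻¹ : ℝ) : ℂ)

theorem vol_pos {n : ℕ} {r : ℝ} (hr : 0 < r) :
    0 < (volume : Measure (E n)).real (closedBall (0 : E n) r) :=
  ENNReal.toReal_pos (measure_closedBall_pos _ _ hr).ne' measure_closedBall_lt_top.ne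

theorem kb_int {n : ℕ} (r : ℝ) : Integrable (kb (n := n) r) := by
  unfold kb
  rw [integrable_indicator_iff isClosed_closedBall.measurableSet]
  exact integrableOn_const measure_closedBall_lt_top.ne

theorem kb_norm {n : ℕ} {r : ℝ} (hr : 0 < r) : ∫ t, ‖kb (n := n) r t‖ = 1 := by
  have hv := vol_pos (n := n) hr
  have e1 : ∀ t, ‖kb (n := n) r t‖ = (closedBall (0 : E n) r).indicator
      (fun _ => ((volume : Measure (E n)).real (closedBall (0 : E n) r))⁻¹) t := by
    intro t
    unfold kb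
    by_cases ht : t ∈ closedBall (0 : E n) r
    · rw [indicator_of_mem ht, indicator_of_mem ht, Complex.norm_real,
        Real.norm_of_nonneg (by positivity)]
    · rw [indicator_of_notMem ht, indicator_of_notMem ht, norm_zero]
  simp only [e1]
  rw [integral_indicator isClosed_closedBall.measurableSet, setIntegral_const, smul_eq_mul,
    mul_inv_cancel₀ hv.ne']

theorem kb_one {n : ℕ} {r : ℝ} (hr : 0 < r) : ∫ t, kb (n := n) r t = 1 := by
  have hv := vol_pos (n := n) hr
  unfold kb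
  rw [integral_indicator isClosed_closedBall.measurableSet, setIntegral_const, Complex.real_smul,
    ← Complex.ofReal_mul, mul_inv_cancel₀ hv.ne', Complex.ofReal_one]

theorem kb_four {n : ℕ} {r : ℝ} (hr : 0 < r) (w : E n) :
    ‖1 - 𝓕 (kb (n := n) r) w‖ ≤ min 2 (2 * Real.pi * r * ‖w‖) := by
  have hk := kb_int (n := n) r
  have h1 : Integrable (fun t => cexp (((-2 * Real.pi * ⟪t, w⟫ : ℝ) : ℂ) * I) *
      kb (n := n) r t) := by
    refine hk.bdd_mul (c := 1) ?_ (Eventually.of_forall fun z => ?_)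
    · apply Continuous.aestronglyMeasurable
      fun_prop
    · rw [Complex.norm_exp_ofReal_mul_I]
  have e1 : 1 - 𝓕 (kb (n := n) r) w = ∫ t, (kb (n := n) r t -
      cexp (((-2 * Real.pi * ⟪t, w⟫ : ℝ) : ℂ) * I) * kb (n := n) r t) := by
    rw [integral_sub hk h1, kb_one hr, ← four_eq]
  rw [e1]
  refine (norm_integral_le_of_norm_le (hk.norm.mul_const (min 2 (2 * Real.pi * r * ‖w‖)))
    (Eventually.of_forall fun t => ?_)).trans (le_of_eq ?_)
  · have e2 : kb (n := n) r t - cexp (((-2 * Real.pi * ⟪t, w⟫ : ℝ) : ℂ) * I) * kb (n := n) r t =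
        kb (n := n) r t * (1 - cexp (((-2 * Real.pi * ⟪t, w⟫ : ℝ) : ℂ) * I)) := by ring
    rw [e2, norm_mul]
    by_cases ht : t ∈ closedBall (0 : E n) r
    · refine mul_le_mul_of_nonneg_left (le_min ?_ ?_) (norm_nonneg _)
      · refine (norm_sub_le _ _).trans (le_of_eq ?_)
        rw [Complex.norm_exp_ofReal_mul_I, norm_one]; norm_num
      · rw [norm_sub_rev, mul_comm _ I]
        refine Real.norm_exp_I_mul_ofReal_sub_one_le.trans ?_
        rw [mem_closedBall_zero_iff] at ht
        have h2 : ‖(⟪t, w⟫ : ℝ)‖ ≤ r * ‖w‖ :=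
          (norm_inner_le_norm t w).trans (mul_le_mul_of_nonneg_right ht (norm_nonneg _))
        have h3 : ‖-2 * Real.pi * ⟪t, w⟫‖ = 2 * Real.pi * ‖(⟪t, w⟫ : ℝ)‖ := by
          rw [norm_mul, norm_mul, norm_neg, Real.norm_of_nonneg Real.pi_pos.le,
            Real.norm_of_nonneg (show (0 : ℝ) ≤ 2 by norm_num)]
        rw [h3, mul_assoc (2 * Real.pi) r]
        exact mul_le_mul_of_nonneg_left h2 (by positivity)
    · have h0 : kb (n := n) r t = 0 := indicator_of_notMem ht _
      rw [h0, norm_zero, zero_mul, zero_mul]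
  · rw [integral_mul_const, kb_norm hr, one_mul]

theorem cv_supp {n : ℕ} {r : ℝ} {f : E n → ℂ} {ξ : E n} (h : cv (kb r) f ξ ≠ 0) :
    ∃ t : E n, ‖t‖ ≤ r ∧ f (ξ - t) ≠ 0 := by
  by_contra hc
  push Not at hc
  apply h
  unfold cv
  have : ∀ t, kb r t * f (ξ - t) = 0 := by
    intro t
    by_cases ht : t ∈ closedBall (0 : E n) r
    · rw [hc t (mem_closedBall_zero_iff.1 ht), mul_zero]
    · have h0 : kb (n := n) r t = 0 := indicator_of_notMem ht _
      rw [h0, zero_mul]
  simp only [this, integral_zero]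

/-- the average of a bounded function carried by a shell -/
theorem cv_shell {n : ℕ} (hn : 2 ≤ n) : ∃ C : ℝ, 0 < C ∧ ∀ (A : ℝ), 4 ≤ A → ∀ r : ℝ, 0 < r →
    ∀ (f : E n → ℂ) (B : ℝ), 0 ≤ B → (∀ ξ, ‖f ξ‖ ≤ B) →
    (∀ ξ, f ξ ≠ 0 → 1 - 2 / A ≤ ‖ξ‖ ∧ ‖ξ‖ ≤ 1) → ∀ ξ, ‖cv (kb r) f ξ‖ ≤ C * B / (A * r) := by
  obtain ⟨C, hC, hs⟩ := shell_ball n hn
  obtain ⟨V, hV, hVb⟩ := ball_vol n
  refine ⟨C / V, by positivity, fun A hA r hr f B hB0 hB hf ξ => ?_⟩
  have hA0 : 0 < A := by linarith
  have hv : (volume : Measure (E n)).real (closedBall (0 : E n) r) = V * r ^ n := by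
    rw [Measure.real, hVb 0 r hr.le, ENNReal.toReal_ofReal (by positivity)]
  set S : Set (E n) := {ζ : E n | 1 - 2 / A ≤ ‖ζ‖ ∧ ‖ζ‖ ≤ 1} ∩ closedBall ξ r with hS
  have hSm : MeasurableSet S :=
    ((measurableSet_le measurable_const measurable_norm).inter
      (measurableSet_le measurable_norm measurable_const)).inter isClosed_closedBall.measurableSet
  have h1 : ‖cv (kb r) f ξ‖ₑ ≤ ENNReal.ofReal (C * B / (V * (A * r))) := by
    unfold cv
    refine (enorm_integral_le_lintegral_enorm _).trans ?_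
    have h2 : ∫⁻ t, ‖kb r t * f (ξ - t)‖ₑ = ∫⁻ s, ‖kb r (ξ - s) * f s‖ₑ := by
      rw [← lintegral_sub_left_eq_self (fun t => ‖kb r t * f (ξ - t)‖ₑ) ξ]
      refine lintegral_congr fun s => ?_
      rw [sub_sub_cancel]
    rw [h2]
    calc ∫⁻ s, ‖kb r (ξ - s) * f s‖ₑ ≤
        ∫⁻ s, S.indicator (fun _ => ENNReal.ofReal ((V * r ^ n)⁻¹ * B)) s := by
          refine lintegral_mono fun s => ?_
          by_cases h3 : ξ - s ∈ closedBall (0 : E n) r
          · by_cases h4 : f s = 0
            · rw [h4, mul_zero, enorm_zero]; exact zero_le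
            · have hsS : s ∈ S := by
                refine ⟨hf s h4, ?_⟩
                rw [mem_closedBall_zero_iff] at h3
                rw [mem_closedBall, dist_eq_norm, norm_sub_rev]
                exact h3
              rw [indicator_of_mem hsS, ← ofReal_norm]
              refine ENNReal.ofReal_le_ofReal ?_
              rw [norm_mul]
              refine mul_le_mul ?_ (hB s) (norm_nonneg _) (by positivity)
              unfold kb
              rw [indicator_of_mem h3, Complex.norm_real, hv, Real.norm_of_nonneg (by positivity)]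
          · have h0 : kb (n := n) r (ξ - s) = 0 := indicator_of_notMem h3 _
            rw [h0, zero_mul, enorm_zero]; exact zero_le
      _ = ENNReal.ofReal ((V * r ^ n)⁻¹ * B) * volume S := lintegral_indicator_const hSm _
      _ ≤ ENNReal.ofReal ((V * r ^ n)⁻¹ * B) * ENNReal.ofReal (C / A * r ^ (n - 1)) :=
          mul_le_mul' le_rfl (hs A hA r hr ξ)
      _ = _ := by
          rw [← ENNReal.ofReal_mul (by positivity)]
          congr 1
          have e3 : r ^ n = r ^ (n - 1) * r := by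
            rw [← pow_succ, Nat.sub_add_cancel (by omega)]
          rw [e3]
          field_simp
  rw [← ofReal_norm, ENNReal.ofReal_le_ofReal_iff (by positivity)] at h1
  refine h1.trans (le_of_eq ?_)
  field_simp

end Pool.Agent.Y350.FC
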