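import Mathlib
import Pool.Agent.Y350.FC.Cv
set_option autoImplicit false

/-! # Project FC: the energy, splitting the kernel at a scale -/

namespace Pool.Agent.Y350.FC

open MeasureTheory Set Metric Complex Filter
open scoped ENNReal RealInnerProductSpace Topology FourierTransform ComplexConjugate
open Pool.Agent.H789R2.FR (E sg T)
open Pool.Agent.H438R2.RZ (Bump)
open Pool.Agent.Y248.BA (mu Kr Tp mu_bdd mu_supp mu_loc mu_cont mu_int mu_comp four_eq four_bdd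
  four_cont)
open Pool.Agent.Y248.FB Pool.Agent.Y248.FC

/-- the square of the multiplier -/
noncomputable def qq {n : ℕ} (ψ : ℝ → ℝ) (A : ℝ) (ξ : E n) : ℂ := mu ψ A 1 ξ * mu ψ A 1 ξ

theorem qq_cont {n : ℕ} {ψ : ℝ → ℝ} (hψ : Bump ψ) (A : ℝ) : Continuous (qq (n := n) ψ A) :=
  (mu_cont hψ A 1).mul (mu_cont hψ A 1)

theorem qq_int {n : ℕ} {ψ : ℝ → ℝ} (hψ : Bump ψ) {A : ℝ} (hA : 0 < A) :
    Integrable (qq (n := n) ψ A) :=
  (qq_cont hψ A).integrable_of_hasCompactSupport ((mu_comp hψ hA one_pos one_le_two).mul_right)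

theorem qq_loc {n : ℕ} {ψ : ℝ → ℝ} (hψ : Bump ψ) {A : ℝ} (hA : 4 ≤ A) {ξ : E n}
    (h : qq ψ A ξ ≠ 0) : 1 - 2 / A ≤ ‖ξ‖ ^ 2 ∧ 1 - 2 / A ≤ ‖ξ‖ ∧ ‖ξ‖ ≤ 1 := by
  have hA0 : 0 < A := by linarith
  have h0 : mu ψ A 1 ξ ≠ 0 := fun h1 => h (by unfold qq; rw [h1, zero_mul])
  obtain ⟨h1, h2⟩ := mu_supp hψ hA0 one_pos ξ h0
  rw [one_pow, one_mul] at h1 h2
  have h3 : 0 < 1 / (2 * A) := by positivity
  have h4 : ‖ξ‖ ≤ 1 := by
    refine le_of_sq_le_sq ?_ (by norm_num)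
    linarith
  refine ⟨h1, ?_, h4⟩
  nlinarith [norm_nonneg ξ]

/-- the plane waves -/
noncomputable def pw {n : ℕ} (g : E n → ℂ) (x ξ : E n) : ℂ :=
  g x * cexp (((2 * Real.pi * ⟪x, ξ⟫ : ℝ) : ℂ) * I)

theorem conj_exp_I (r : ℝ) : conj (cexp ((r : ℂ) * I)) = cexp (((-r : ℝ) : ℂ) * I) := by
  rw [← Complex.exp_conj, map_mul, Complex.conj_ofReal, Complex.conj_I]
  congr 1
  push_cast
  ring

theorem fm_prod {n : ℕ} (ν : Measure (E n)) [IsFiniteMeasure ν] (g : E n → ℂ) (ξ : E n) :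
    Fm g ν ξ * conj (Fm g ν ξ) = ∫ z : E n × E n, pw g z.1 ξ * conj (pw g z.2 ξ) ∂(ν.prod ν) := by
  rw [integral_prod_mul (fun x => pw g x ξ) (fun y => conj (pw g y ξ)), integral_conj]
  rfl

theorem pw_pair {n : ℕ} (g q : E n → ℂ) (x y : E n) :
    ∫ ξ, q ξ * (pw g x ξ * conj (pw g y ξ)) = g x * conj (g y) * 𝓕 q (y - x) := by
  rw [four_eq, ← integral_const_mul]
  congr 1; funext ξ
  unfold pw
  rw [map_mul, conj_exp_I]
  have e3 : (((-2 * Real.pi * ⟪ξ, y - x⟫ : ℝ) : ℂ) * I) =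
      (((2 * Real.pi * ⟪x, ξ⟫ : ℝ) : ℂ) * I) + (((-(2 * Real.pi * ⟪y, ξ⟫) : ℝ) : ℂ) * I) := by
    rw [inner_sub_right, real_inner_comm ξ y, real_inner_comm ξ x]
    push_cast; ring
  rw [e3, Complex.exp_add]
  ring

/-- the energy identity -/
theorem en_id {n : ℕ} (ν : Measure (E n)) [IsFiniteMeasure ν] {q : E n → ℂ} (hq : Integrable q)
    {g : E n → ℂ} (hg : Measurable g) {M : ℝ} (hM : ∀ x, ‖g x‖ ≤ M) :
    ∫ ξ, q ξ * (Fm g ν ξ * conj (Fm g ν ξ)) =
      ∫ z : E n × E n, g z.1 * conj (g z.2) * 𝓕 q (z.2 - z.1) ∂(ν.prod ν) := by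
  have hm1 : Measurable fun z : (E n × E n) × E n => pw g z.1.1 z.2 := by
    unfold pw
    refine (hg.comp (measurable_fst.comp measurable_fst)).mul ?_
    apply Continuous.measurable
    fun_prop
  have hm2 : Measurable fun z : (E n × E n) × E n => pw g z.1.2 z.2 := by
    unfold pw
    refine (hg.comp (measurable_snd.comp measurable_fst)).mul ?_
    apply Continuous.measurable
    fun_prop
  have hn : ∀ x ξ, ‖pw g x ξ‖ ≤ |M| := by
    intro x ξ
    unfold pw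
    rw [norm_mul, Complex.norm_exp_ofReal_mul_I, mul_one]
    exact (hM x).trans (le_abs_self M)
  have hprod : Integrable (fun z : (E n × E n) × E n => q z.2 *
      (pw g z.1.1 z.2 * conj (pw g z.1.2 z.2))) ((ν.prod ν).prod volume) := by
    refine (hq.comp_snd (ν.prod ν)).mul_bdd (c := |M| * |M|) ?_
      (Eventually.of_forall fun z => ?_)
    · exact (hm1.mul (Complex.continuous_conj.measurable.comp hm2)).aestronglyMeasurable
    · rw [norm_mul, RCLike.norm_conj]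
      exact mul_le_mul (hn _ _) (hn _ _) (norm_nonneg _) (abs_nonneg _)
  have hsw := integral_integral_swap (f := fun (z : E n × E n) (ξ : E n) => q ξ *
      (pw g z.1 ξ * conj (pw g z.2 ξ))) hprod
  simp only [pw_pair] at hsw
  rw [hsw]
  refine integral_congr_ae (Eventually.of_forall fun ξ => ?_)
  simp only
  rw [fm_prod, integral_const_mul]

/-- iterated averages -/
noncomputable def Qi {n : ℕ} (r : ℝ) (q : E n → ℂ) (i : ℕ) : E n → ℂ := (cv (kb r))^[i] q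

theorem Qi_succ {n : ℕ} (r : ℝ) (q : E n → ℂ) (i : ℕ) : Qi r q (i + 1) = cv (kb r) (Qi r q i) :=
  Function.iterate_succ_apply' _ _ _

theorem Qi_int {n : ℕ} (r : ℝ) {q : E n → ℂ} (hq : Integrable q) (i : ℕ) :
    Integrable (Qi r q i) := by
  induction i with
  | zero => exact hq
  | succ i ih => rw [Qi_succ]; exact cv_int (kb_int r) ih

theorem Qi_four {n : ℕ} (r : ℝ) {q : E n → ℂ} (hq : Integrable q) (i : ℕ) (w : E n) :
    𝓕 (Qi r q i) w = 𝓕 (kb r) w ^ i * 𝓕 q w := by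
  induction i with
  | zero => rw [pow_zero, one_mul]; rfl
  | succ i ih => rw [Qi_succ, four_cv (kb_int r) (Qi_int r hq i), ih]; ring

theorem Qi_supp {n : ℕ} (r : ℝ) {q : E n → ℂ} (i : ℕ) (ξ : E n) (h : Qi r q i ξ ≠ 0) :
    ∃ ζ, q ζ ≠ 0 ∧ ‖ξ - ζ‖ ≤ i * r := by
  induction i generalizing ξ with
  | zero => exact ⟨ξ, h, by simp⟩
  | succ i ih =>
    rw [Qi_succ] at h
    obtain ⟨t, ht, h1⟩ := cv_supp h
    obtain ⟨ζ, hζ, h2⟩ := ih (ξ - t) h1
    refine ⟨ζ, hζ, ?_⟩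
    calc ‖ξ - ζ‖ = ‖(ξ - t - ζ) + t‖ := by congr 1; abel
      _ ≤ ‖ξ - t - ζ‖ + ‖t‖ := norm_add_le _ _
      _ ≤ i * r + r := add_le_add h2 ht
      _ = ((i + 1 : ℕ) : ℝ) * r := by push_cast; ring

theorem Qi_bdd {n : ℕ} {r : ℝ} (hr : 0 < r) {q : E n → ℂ} {M : ℝ}
    (h1 : ∀ ξ, ‖Qi r q 1 ξ‖ ≤ M) (i : ℕ) (ξ : E n) : ‖Qi r q (i + 1) ξ‖ ≤ M := by
  induction i generalizing ξ with
  | zero => exact h1 ξ
  | succ i ih => rw [Qi_succ]; exact cv_bdd (kb_int r) (kb_norm hr) ih ξ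

/-- the elementary inequality for the remainder -/
theorem rem_ineq {n : ℕ} (hn : 2 ≤ n) {l : ℝ} (hl : 1 ≤ l) (u : ℝ) (hu : 0 ≤ u) :
    (1 + u) ^ (-kap n) * (min 2 (u / l)) ^ n ≤ 2 ^ n * l ^ (-kap n) := by
  have hn' : (2 : ℝ) ≤ n := by exact_mod_cast hn
  have hk : 0 < kap n := by unfold kap; linarith
  have hkn : kap n ≤ n := by unfold kap; linarith
  have hl0 : 0 < l := by linarith
  have hmin0 : 0 ≤ min 2 (u / l) := le_min (by norm_num) (by positivity)
  rcases le_total l u with h | h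
  · have h1 : (1 + u) ^ (-kap n) ≤ l ^ (-kap n) :=
      Real.rpow_le_rpow_of_nonpos hl0 (by linarith) (by linarith)
    have h2 : (min 2 (u / l)) ^ n ≤ 2 ^ n := pow_le_pow_left₀ hmin0 (min_le_left _ _) n
    calc (1 + u) ^ (-kap n) * (min 2 (u / l)) ^ n ≤ l ^ (-kap n) * 2 ^ n := by gcongr
      _ = _ := mul_comm _ _
  · have h1 : (min 2 (u / l)) ^ n ≤ (u / l) ^ (kap n) := by
      have hul : u / l ≤ 1 := by rw [div_le_one hl0]; exact h
      calc (min 2 (u / l)) ^ n ≤ (u / l) ^ n := pow_le_pow_left₀ hmin0 (min_le_right _ _) n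
        _ = (u / l) ^ (n : ℝ) := (Real.rpow_natCast _ _).symm
        _ ≤ (u / l) ^ (kap n) :=
          Real.rpow_le_rpow_of_exponent_ge' (by positivity) hul hk.le hkn
    have h2 : (u / l) ^ (kap n) ≤ (1 + u) ^ (kap n) * l ^ (-kap n) := by
      rw [Real.div_rpow hu hl0.le, Real.rpow_neg hl0.le, div_eq_mul_inv]
      gcongr
      linarith
    have h3 : (1 + u) ^ (-kap n) * (1 + u) ^ (kap n) = 1 := by
      rw [← Real.rpow_add (by positivity), neg_add_cancel, Real.rpow_zero]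
    have h4 : (1 : ℝ) ≤ 2 ^ n := one_le_pow₀ (by norm_num)
    calc (1 + u) ^ (-kap n) * (min 2 (u / l)) ^ n ≤
        (1 + u) ^ (-kap n) * ((1 + u) ^ (kap n) * l ^ (-kap n)) := by
          gcongr
          exact h1.trans h2
      _ = ((1 + u) ^ (-kap n) * (1 + u) ^ (kap n)) * l ^ (-kap n) := by ring
      _ = 1 * l ^ (-kap n) := by rw [h3]
      _ ≤ _ := by gcongr

theorem t_sp (n : ℕ) (hn : 2 ≤ n) : S_KK n → S_SP n := by
  intro hKK ψ hψ γ K hγ0 hγ1 hK
  obtain ⟨CK, hCK, hkk⟩ := hKK ψ hψ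
  obtain ⟨B, hB, hBb⟩ := mu_bdd hψ
  obtain ⟨CS, hCS, hsh⟩ := cv_shell hn
  have hn0 : (0 : ℝ) < n := by exact_mod_cast (by omega : 0 < n)
  have hn2 : (2 : ℝ) ≤ n := by exact_mod_cast hn
  obtain ⟨Ca, hCa⟩ : ∃ Ca : ℝ, Ca = CK * 2 ^ n := ⟨_, rfl⟩
  obtain ⟨Cb, hCb⟩ : ∃ Cb : ℝ, Cb = 2 ^ n * (CS * B ^ 2 * (10 * n)) * (K * 3 ^ γ) := ⟨_, rfl⟩
  have hCa0 : 0 < Ca := by rw [hCa]; positivity
  have hCb0 : 0 ≤ Cb := by rw [hCb]; positivity
  refine ⟨Ca + Cb, by positivity, fun μ hμ hG A hA l hl hlA g hg => ?_⟩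
  have hA0 : 0 < A := by linarith
  have hl0 : 0 < l := by linarith
  have hg' := hg
  obtain ⟨hgm, ⟨M, hM⟩, ρ, hρ⟩ := hg'
  set ν : Measure (E n) := μ.restrict (closedBall 0 ρ) with hν
  have hνf : IsFiniteMeasure ν :=
    ⟨by rw [hν, Measure.restrict_apply_univ]; exact ball_fin hμ ρ⟩
  have hFm : ∀ ξ, Fm g μ ξ = Fm g ν ξ := by
    intro ξ
    unfold Fm
    exact (setIntegral_eq_integral_of_forall_compl_eq_zero fun x hx => by
      rw [hρ x hx, zero_mul]).symm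
  have hi1 : ∫⁻ x, ‖g x‖ₑ ∂μ = ∫⁻ x, ‖g x‖ₑ ∂ν := by
    rw [hν, ← lintegral_indicator isClosed_closedBall.measurableSet]
    refine lintegral_congr fun x => ?_
    by_cases hx : x ∈ closedBall (0 : E n) ρ
    · rw [indicator_of_mem hx]
    · rw [indicator_of_notMem hx, hρ x hx, enorm_zero]
  have hFmeas : Measurable (Fm g ν) := by
    have h2 : Measurable fun z : E n × E n => g z.2 *
        cexp (((2 * Real.pi * ⟪z.2, z.1⟫ : ℝ) : ℂ) * I) := by
      have h1 : Continuous fun z : E n × E n =>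
          cexp (((2 * Real.pi * ⟪z.2, z.1⟫ : ℝ) : ℂ) * I) := by
        fun_prop
      exact (hgm.comp measurable_snd).mul h1.measurable
    exact (h2.stronglyMeasurable.integral_prod_right' (ν := ν)).measurable
  set q : E n → ℂ := qq ψ A with hq
  have hqi : Integrable q := qq_int hψ hA0
  set r : ℝ := 1 / (10 * n * l) with hr
  have hr0 : 0 < r := by positivity
  -- the energies of the averages
  set J : ℕ → ℂ := fun i => ∫ ξ, Qi r q i ξ * (Fm g ν ξ * conj (Fm g ν ξ)) with hJ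
  set P : ℂ := ∫ z : E n × E n, g z.1 * conj (g z.2) *
    ((1 - 𝓕 (kb r) (z.2 - z.1)) ^ n * 𝓕 q (z.2 - z.1)) ∂(ν.prod ν) with hP
  have hsum : ∑ i ∈ Finset.range (n + 1), ((-1) ^ i * (n.choose i : ℂ)) * J i = P := by
    have e1 : ∀ i, ((-1) ^ i * (n.choose i : ℂ)) * J i = ∫ z : E n × E n,
        ((-1) ^ i * (n.choose i : ℂ)) * (g z.1 * conj (g z.2) *
          (𝓕 (kb r) (z.2 - z.1) ^ i * 𝓕 q (z.2 - z.1))) ∂(ν.prod ν) := by
      intro i
      rw [integral_const_mul, hJ]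
      simp only
      rw [en_id ν (Qi_int r hqi i) hgm hM]
      simp only [Qi_four r hqi i]
    have hint : ∀ i ∈ Finset.range (n + 1), Integrable (fun z : E n × E n =>
        ((-1) ^ i * (n.choose i : ℂ)) * (g z.1 * conj (g z.2) *
          (𝓕 (kb r) (z.2 - z.1) ^ i * 𝓕 q (z.2 - z.1)))) (ν.prod ν) := by
      intro i _
      refine Integrable.const_mul ?_ _
      have hc : Continuous fun z : E n × E n => 𝓕 (kb r) (z.2 - z.1) ^ i * 𝓕 q (z.2 - z.1) :=
        ((four_cont (kb_int r)).comp (continuous_snd.sub continuous_fst)).pow i |>.mul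
          ((four_cont hqi).comp (continuous_snd.sub continuous_fst))
      have hm : Measurable fun z : E n × E n => g z.1 * conj (g z.2) :=
        (hgm.comp measurable_fst).mul (Complex.continuous_conj.measurable.comp
          (hgm.comp measurable_snd))
      refine Integrable.of_bound (C := |M| * |M| * ((∫ x, ‖kb (n := n) r x‖) ^ i * ∫ x, ‖q x‖))
        (hm.mul hc.measurable).aestronglyMeasurable (Eventually.of_forall fun z => ?_)
      rw [norm_mul, norm_mul, norm_mul, norm_pow, RCLike.norm_conj]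
      have h1 : ∀ x, ‖g x‖ ≤ |M| := fun x => (hM x).trans (le_abs_self M)
      have h2 : 0 ≤ ∫ x, ‖q x‖ := integral_nonneg fun x => norm_nonneg _
      have h3 : 0 ≤ ∫ x, ‖kb (n := n) r x‖ := integral_nonneg fun x => norm_nonneg _
      have h4 := four_bdd (kb (n := n) r) (z.2 - z.1)
      have h5 := four_bdd q (z.2 - z.1)
      exact mul_le_mul (mul_le_mul (h1 _) (h1 _) (norm_nonneg _) (abs_nonneg _))
        (mul_le_mul (pow_le_pow_left₀ (norm_nonneg _) h4 i) h5 (norm_nonneg _) (by positivity))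
        (by positivity) (by positivity)
    rw [Finset.sum_congr rfl fun i _ => e1 i, ← integral_finsetSum _ hint, hP]
    refine integral_congr_ae (Eventually.of_forall fun z => ?_)
    simp only
    have e2 : (1 - 𝓕 (kb r) (z.2 - z.1)) ^ n = ∑ i ∈ Finset.range (n + 1),
        ((-1) ^ i * (n.choose i : ℂ)) * 𝓕 (kb r) (z.2 - z.1) ^ i := by
      rw [sub_eq_neg_add, add_pow]
      refine Finset.sum_congr rfl fun i _ => ?_
      rw [one_pow, mul_one, neg_pow]
      ring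
    rw [e2, Finset.sum_mul, Finset.mul_sum]
    exact Finset.sum_congr rfl fun i _ => by ring
  -- the terms with averages
  have hBq : ∀ ξ, ‖q ξ‖ ≤ B ^ 2 := by
    intro ξ
    rw [hq]
    unfold qq
    rw [norm_mul, sq]
    exact mul_le_mul (hBb n A 1 ξ) (hBb n A 1 ξ) (norm_nonneg _) hB.le
  have hM1 : ∀ i ξ, ‖Qi r q (i + 1) ξ‖ ≤ CS * B ^ 2 / (A * r) := fun i ξ =>
    Qi_bdd hr0 (fun ζ => hsh A hA r hr0 q (B ^ 2) (by positivity) hBq
      (fun ξ h => (qq_loc hψ hA h).2) ζ) i ξ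
  have hterm : ∀ i, i < n → ‖J (i + 1)‖ₑ ≤ ENNReal.ofReal (CS * B ^ 2 / (A * r)) *
      (ENNReal.ofReal (K * (l / 3) ^ (-γ)) * ∫⁻ x, ‖g x‖ₑ ^ (2 : ℝ) ∂μ) := by
    intro i hi
    set S : Set (E n) := {ξ : E n | |‖ξ‖ ^ 2 - 1| ≤ 1 / (l / 3)} with hS
    have hSm : MeasurableSet S :=
      measurableSet_le (((measurable_norm.pow_const 2).sub_const 1).abs) measurable_const
    calc ‖J (i + 1)‖ₑ ≤ ∫⁻ ξ, ‖Qi r q (i + 1) ξ * (Fm g ν ξ * conj (Fm g ν ξ))‖ₑ :=
          enorm_integral_le_lintegral_enorm _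
      _ ≤ ∫⁻ ξ, S.indicator (fun ξ => ENNReal.ofReal (CS * B ^ 2 / (A * r)) *
            ‖Fm g μ ξ‖ₑ ^ (2 : ℝ)) ξ := by
          refine lintegral_mono fun ξ => ?_
          by_cases h0 : Qi r q (i + 1) ξ = 0
          · rw [h0, zero_mul, enorm_zero]; exact zero_le
          · obtain ⟨ζ, hζ, hξζ⟩ := Qi_supp r (i + 1) ξ h0
            obtain ⟨h1, -, h3⟩ := qq_loc hψ hA hζ
            have hir : ((i + 1 : ℕ) : ℝ) * r ≤ 1 / (10 * l) := by
              have hi' : ((i + 1 : ℕ) : ℝ) ≤ n := by exact_mod_cast hi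
              calc ((i + 1 : ℕ) : ℝ) * r ≤ n * r := by gcongr
                _ = 1 / (10 * l) := by rw [hr]; field_simp
            have h4 : ‖ξ - ζ‖ ≤ 1 / (10 * l) := hξζ.trans hir
            have h5 : |‖ξ‖ - ‖ζ‖| ≤ 1 / (10 * l) := (abs_norm_sub_norm_le ξ ζ).trans h4
            have h6 : 1 / (10 * l) ≤ 1 / 30 := by
              rw [div_le_div_iff₀ (by positivity) (by norm_num)]; linarith
            have h7 : 2 / A ≤ 2 / l := by gcongr
            have hξS : ξ ∈ S := by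
              change |‖ξ‖ ^ 2 - 1| ≤ 1 / (l / 3)
              have e1 : 1 / (l / 3) = 30 * (1 / (10 * l)) := by field_simp; norm_num
              have e2 : 2 / l = 20 * (1 / (10 * l)) := by field_simp; norm_num
              rw [e2] at h7
              rw [e1]
              obtain ⟨d, hd⟩ : ∃ d : ℝ, d = 1 / (10 * l) := ⟨_, rfl⟩
              rw [← hd] at h5 h6 h7 ⊢
              have hd0 : 0 ≤ d := by rw [hd]; positivity
              have h8 := norm_nonneg ξ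
              have h9 := norm_nonneg ζ
              obtain ⟨h10, h11⟩ := abs_le.1 h5
              have h12 : ‖ξ‖ ^ 2 - ‖ζ‖ ^ 2 = (‖ξ‖ - ‖ζ‖) * (‖ξ‖ + ‖ζ‖) := by ring
              have h13 : ‖ξ‖ + ‖ζ‖ ≤ 3 := by linarith
              rw [abs_le]
              constructor
              · nlinarith
              · nlinarith
            rw [indicator_of_mem hξS, enorm_mul, hFm ξ]
            refine mul_le_mul' ?_ (le_of_eq ?_)
            · rw [← ofReal_norm]
              exact ENNReal.ofReal_le_ofReal (hM1 i ξ)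
            · rw [← ofReal_norm, ← ofReal_norm, norm_mul, RCLike.norm_conj,
                ENNReal.ofReal_rpow_of_nonneg (norm_nonneg _) (by norm_num)]
              congr 1
              rw [show (2 : ℝ) = ((2 : ℕ) : ℝ) by norm_num, Real.rpow_natCast, sq]
      _ = ENNReal.ofReal (CS * B ^ 2 / (A * r)) * ∫⁻ ξ in S, ‖Fm g μ ξ‖ₑ ^ (2 : ℝ) := by
          rw [lintegral_indicator hSm, lintegral_const_mul' _ _ ENNReal.ofReal_ne_top]
      _ ≤ _ := mul_le_mul' le_rfl (hG (l / 3) (by linarith) g hg)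
  -- the remainder
  have hPb : ‖P‖ₑ ≤ ENNReal.ofReal (Ca / A * l ^ (-kap n)) * (∫⁻ x, ‖g x‖ₑ ∂μ) ^ (2 : ℝ) := by
    rw [hP]
    refine (enorm_integral_le_lintegral_enorm _).trans ?_
    have h1 : ∀ z : E n × E n, ‖g z.1 * conj (g z.2) *
        ((1 - 𝓕 (kb r) (z.2 - z.1)) ^ n * 𝓕 q (z.2 - z.1))‖ₑ ≤
        ENNReal.ofReal (Ca / A * l ^ (-kap n)) * (‖g z.1‖ₑ * ‖g z.2‖ₑ) := by
      intro z
      have h2 : ‖conj (g z.2)‖ₑ = ‖g z.2‖ₑ := by
        rw [← ofReal_norm, ← ofReal_norm, RCLike.norm_conj]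
      rw [enorm_mul, enorm_mul, h2, mul_comm]
      refine mul_le_mul' ?_ le_rfl
      rw [← ofReal_norm]
      refine ENNReal.ofReal_le_ofReal ?_
      rw [norm_mul, norm_pow]
      obtain ⟨w, hw⟩ : ∃ w, w = z.2 - z.1 := ⟨_, rfl⟩
      rw [← hw]
      have h3 := kb_four (n := n) hr0 w
      have h4 := (hkk A 1 1 hA le_rfl one_le_two le_rfl one_le_two w).2
      have h5 : 2 * Real.pi * r * ‖w‖ ≤ ‖w‖ / l := by
        rw [hr]
        have hpi := Real.pi_lt_four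
        have h6 : 2 * Real.pi * (1 / (10 * n * l)) ≤ 1 / l := by
          rw [mul_one_div, div_le_div_iff₀ (by positivity) hl0]
          nlinarith
        calc 2 * Real.pi * (1 / (10 * n * l)) * ‖w‖ ≤ 1 / l * ‖w‖ := by gcongr
          _ = ‖w‖ / l := by ring
      have h6 : ‖1 - 𝓕 (kb (n := n) r) w‖ ≤ min 2 (‖w‖ / l) :=
        h3.trans (min_le_min le_rfl h5)
      have h7 := rem_ineq hn (by linarith : 1 ≤ l) ‖w‖ (norm_nonneg w)
      have hmin0 : 0 ≤ min 2 (‖w‖ / l) := le_min (by norm_num) (by positivity)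
      calc ‖1 - 𝓕 (kb (n := n) r) w‖ ^ n * ‖𝓕 q w‖ ≤
          (min 2 (‖w‖ / l)) ^ n * (CK / A * (1 + ‖w‖) ^ (-kap n)) := by
            refine mul_le_mul (pow_le_pow_left₀ (norm_nonneg _) h6 n) h4 (norm_nonneg _)
              (by positivity)
        _ = CK / A * ((1 + ‖w‖) ^ (-kap n) * (min 2 (‖w‖ / l)) ^ n) := by ring
        _ ≤ CK / A * (2 ^ n * l ^ (-kap n)) := by gcongr
        _ = Ca / A * l ^ (-kap n) := by rw [hCa]; ring
    refine (lintegral_mono h1).trans (le_of_eq ?_)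
    rw [lintegral_const_mul' _ _ ENNReal.ofReal_ne_top,
      lintegral_prod_mul hgm.enorm.aemeasurable hgm.enorm.aemeasurable, hi1]
    congr 1
    rw [show (2 : ℝ) = ((2 : ℕ) : ℝ) by norm_num, ENNReal.rpow_natCast, sq]
  -- the energy
  have hE : ∫⁻ ξ, ‖Hd ψ A (fun _ => 1) g μ ξ‖ₑ ^ (2 : ℝ) = ‖J 0‖ₑ := by
    have hqr : ∀ ξ, Qi r q 0 ξ * (Fm g ν ξ * conj (Fm g ν ξ)) =
        ((‖mu ψ A 1 ξ * Fm g ν ξ‖ ^ 2 : ℝ) : ℂ) := by
      intro ξ
      change qq ψ A ξ * (Fm g ν ξ * conj (Fm g ν ξ)) = _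
      rw [Complex.mul_conj, Complex.normSq_eq_norm_sq, norm_mul, mul_pow, Complex.ofReal_mul]
      congr 1
      unfold qq mu
      rw [Complex.norm_real, Real.norm_eq_abs, sq_abs, Complex.ofReal_pow]
      ring
    have hint0 : Integrable (fun ξ => Qi r q 0 ξ * (Fm g ν ξ * conj (Fm g ν ξ))) := by
      refine (Qi_int r hqi 0).mul_bdd (c := (∫⁻ x, ‖g x‖ₑ ∂ν).toReal * (∫⁻ x, ‖g x‖ₑ ∂ν).toReal)
        ?_ (Eventually.of_forall fun ξ => ?_)
      · exact (hFmeas.mul (Complex.continuous_conj.measurable.comp hFmeas)).aestronglyMeasurable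
      · rw [norm_mul, RCLike.norm_conj]
        have h1 : ‖Fm g ν ξ‖ ≤ (∫⁻ x, ‖g x‖ₑ ∂ν).toReal := by
          have h2 : ∫⁻ x, ‖g x‖ₑ ∂ν ≠ ∞ := by
            rw [← hi1]
            exact (bb_int hμ hg).2.ne
          have h3 := fm_le ν g ξ
          rw [← ofReal_norm] at h3
          exact (ENNReal.ofReal_le_iff_le_toReal h2).1 h3
        exact mul_le_mul h1 h1 (norm_nonneg _) ENNReal.toReal_nonneg
    have hint1 : Integrable (fun ξ => ‖mu ψ A 1 ξ * Fm g ν ξ‖ ^ 2) := by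
      refine hint0.re.congr (Eventually.of_forall fun ξ => ?_)
      change (Qi r q 0 ξ * (Fm g ν ξ * conj (Fm g ν ξ))).re = _
      rw [hqr ξ, Complex.ofReal_re]
    rw [hJ]
    simp only
    simp only [hqr]
    rw [integral_complex_ofReal, ← ofReal_norm, Complex.norm_real, Real.norm_of_nonneg
      (integral_nonneg fun ξ => by positivity),
      ofReal_integral_eq_lintegral_ofReal hint1 (Eventually.of_forall fun x => by positivity)]
    refine lintegral_congr fun ξ => ?_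
    rw [Hd_eq, hFm ξ, ← ofReal_norm, ENNReal.ofReal_rpow_of_nonneg (norm_nonneg _) (by norm_num)]
    congr 1
    exact_mod_cast Real.rpow_natCast _ 2
  rw [hE]
  -- solve for `J 0`
  have hJ0 : J 0 = P - ∑ i ∈ Finset.range n,
      ((-1) ^ (i + 1) * (n.choose (i + 1) : ℂ)) * J (i + 1) := by
    rw [Finset.sum_range_succ'] at hsum
    rw [← hsum, pow_zero, Nat.choose_zero_right, Nat.cast_one, one_mul, one_mul]
    ring
  set X : ℝ≥0∞ := ENNReal.ofReal (CS * B ^ 2 / (A * r)) *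
      (ENNReal.ofReal (K * (l / 3) ^ (-γ)) * ∫⁻ x, ‖g x‖ₑ ^ (2 : ℝ) ∂μ) with hX
  have hsum2 : ‖∑ i ∈ Finset.range n, ((-1) ^ (i + 1) * (n.choose (i + 1) : ℂ)) * J (i + 1)‖ₑ ≤
      ENNReal.ofReal (2 ^ n) * X := by
    have h1 : ∀ (s : Finset ℕ) (a : ℕ → ℂ), ‖∑ i ∈ s, a i‖ₑ ≤ ∑ i ∈ s, ‖a i‖ₑ := by
      intro s a
      classical
      induction s using Finset.induction_on with
      | empty => simp
      | insert i s hi ih =>
        rw [Finset.sum_insert hi, Finset.sum_insert hi]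
        exact (enorm_add_le _ _).trans (add_le_add le_rfl ih)
    refine (h1 _ _).trans ?_
    have h2 : ∀ i ∈ Finset.range n, ‖((-1) ^ (i + 1) * (n.choose (i + 1) : ℂ)) * J (i + 1)‖ₑ ≤
        (n.choose (i + 1) : ℝ≥0∞) * X := by
      intro i hi
      rw [enorm_mul]
      refine mul_le_mul' (le_of_eq ?_) (hterm i (Finset.mem_range.1 hi))
      rw [← ofReal_norm, norm_mul, norm_pow, norm_neg, norm_one, one_pow, one_mul,
        Complex.norm_natCast, ENNReal.ofReal_natCast]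
    refine (Finset.sum_le_sum h2).trans ?_
    rw [← Finset.sum_mul]
    refine mul_le_mul' ?_ le_rfl
    rw [← Nat.cast_sum]
    have h3 : ∑ i ∈ Finset.range n, n.choose (i + 1) ≤ 2 ^ n := by
      rw [← Nat.sum_range_choose n, Finset.sum_range_succ']
      exact Nat.le_add_right _ _
    have h4 : ENNReal.ofReal ((2 : ℝ) ^ n) = ((2 ^ n : ℕ) : ℝ≥0∞) := by
      rw [← ENNReal.ofReal_natCast]
      push_cast
      rfl
    rw [h4]
    exact_mod_cast h3
  rw [hJ0]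
  refine (enorm_sub_le).trans (add_le_add (hPb.trans ?_) (hsum2.trans ?_))
  · refine mul_le_mul' (ENNReal.ofReal_le_ofReal ?_) le_rfl
    gcongr
    linarith
  · rw [hX, ← mul_assoc, ← mul_assoc, ← ENNReal.ofReal_mul (by positivity),
      ← ENNReal.ofReal_mul (by positivity)]
    refine mul_le_mul' (ENNReal.ofReal_le_ofReal ?_) le_rfl
    have e1 : (l / 3) ^ (-γ) = 3 ^ γ * l ^ (-γ) := by
      rw [Real.div_rpow hl0.le (by norm_num), Real.rpow_neg (show (0:ℝ) ≤ 3 by norm_num),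
        div_inv_eq_mul, mul_comm]
    have e2 : l ^ (1 - γ) = l * l ^ (-γ) := by
      rw [sub_eq_add_neg, Real.rpow_add hl0, Real.rpow_one]
    have e3 : 2 ^ n * (CS * B ^ 2 / (A * r)) * (K * (l / 3) ^ (-γ)) = Cb / A * l ^ (1 - γ) := by
      rw [e1, e2, hCb, hr]
      field_simp
    rw [e3]
    gcongr
    linarith

end Pool.Agent.Y350.FC
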