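import Mathlib
import Pool.Agent.Y248.FC.Stm
import Pool.Agent.Y515.FB.L2p
set_option autoImplicit false

/-! # Project FC: from the energy estimate to `L^2 → L^p(μ)` and `L^p → L^p(μ)` on balls

Adapted from `Pool.Agent.Y515.FB.L2p`. -/

namespace Pool.Agent.Y350.FC

open MeasureTheory Set Metric Complex Filter
open scoped ENNReal RealInnerProductSpace Topology FourierTransform
open Pool.Agent.H789R2.FR (E sg T)
open Pool.Agent.H438R2.RZ (Bump)
open Pool.Agent.Y248.BA (mu Kr Tp gh gh_cont mu_bdd mu_far mu_cont mu_int Tp_eq four_eq four_bdd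
  gh_planch ball_vol loc_norm int_of_loc memLp_two Kr_crude)
open Pool.Agent.Y248.FB Pool.Agent.Y248.FC
open Pool.Agent.Y515.FB (Ff Ff_bdd Ff_meas gt gt_meas gt_norm pair_le absorb sq_mul_pow)

theorem rad_one {n : ℕ} : Radii (fun _ : E n => (1 : ℝ)) :=
  ⟨measurable_const, fun _ => ⟨le_rfl, one_le_two⟩⟩

theorem t_gl2 (n : ℕ) (_hn : 2 ≤ n) : S_GE n → S_GL2 n := by
  intro h ψ hψ γ K₀ p ε hγ0 hγ1 hK0 hp hε
  obtain ⟨C, hC, hE⟩ := h ψ hψ γ K₀ p ε hγ0 hγ1 hK0 hp hε
  refine ⟨C, hC, fun μ hμ hG A hA f hfm hf hf2 => ?_⟩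
  have hA0 : 0 < A := by linarith
  have hp0 : 0 < p := by linarith
  have hp1 : 0 < p - 1 := by linarith
  have hR : Radii (fun _ : E n => (1 : ℝ)) := rad_one
  obtain ⟨K, hK, hKb⟩ := Ff_bdd hψ hA0 hR hf
  have hFm := Ff_meas hψ hA0 hR hf
  change ∫⁻ x, ‖Ff ψ A (fun _ => 1) f x‖ₑ ^ p ∂μ ≤ _
  set F := Ff ψ A (fun _ => 1) f with hF
  -- the estimate on balls
  have hloc : ∀ ρ : ℝ, 1 ≤ ρ → ∫⁻ x in closedBall 0 ρ, ‖F x‖ₑ ^ p ∂μ ≤
      ENNReal.ofReal ((C * A ^ (-th n γ p + ε)) ^ (p / 2)) *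
        (∫⁻ x, ‖f x‖ₑ ^ (2 : ℝ)) ^ (p / 2) := by
    intro ρ hρ
    set B := closedBall (0 : E n) ρ with hB
    have hBm : MeasurableSet B := isClosed_closedBall.measurableSet
    have hBf : μ B < ∞ := (hμ 0 ρ hρ).trans_lt ENNReal.ofReal_lt_top
    have : IsFiniteMeasure (μ.restrict B) := ⟨by rw [Measure.restrict_apply_univ]; exact hBf⟩
    set g := gt F B p with hg
    have hgm : Measurable g := gt_meas hFm hBm p
    have hgb : ∀ x, ‖g x‖ ≤ K ^ (p - 1) := by
      intro x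
      rw [hg, gt_norm F B hp]
      by_cases hx : x ∈ B
      · rw [indicator_of_mem hx]
        exact Real.rpow_le_rpow (norm_nonneg _) (hKb x) hp1.le
      · rw [indicator_of_notMem hx]; positivity
    have hg0 : ∀ x, x ∉ B → g x = 0 := fun x hx => indicator_of_notMem hx _
    have h1 := hE μ hμ hG A hA g ⟨hgm, ⟨_, hgb⟩, ⟨ρ, hg0⟩⟩
    have h2 : Hd ψ A (fun _ => 1) g (μ.restrict B) = Hd ψ A (fun _ => 1) g μ := by
      funext ξ
      unfold Hd
      exact setIntegral_eq_integral_of_forall_compl_eq_zero fun x hx => by rw [hg0 x hx]; ring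
    have h3 := pair_le hψ hA0 hR (μ.restrict B) hf hf2 hgm hgb
    rw [h2] at h3
    set J : ℝ≥0∞ := ∫⁻ x in B, ‖F x‖ₑ ^ p ∂μ with hJ
    have hen : ∀ x, ENNReal.ofReal (‖F x‖ ^ p) = ‖F x‖ₑ ^ p := by
      intro x
      rw [← ofReal_norm, ENNReal.ofReal_rpow_of_nonneg (norm_nonneg _) hp0.le]
    have hFi : Integrable (fun x => ‖F x‖ ^ p) (μ.restrict B) := by
      refine Integrable.of_bound (C := K ^ p) (hFm.norm.pow_const _).aestronglyMeasurable
        (Eventually.of_forall fun x => ?_)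
      rw [Real.norm_of_nonneg (by positivity)]
      exact Real.rpow_le_rpow (norm_nonneg _) (hKb x) hp0.le
    have hJe : ENNReal.ofReal (∫ x in B, ‖F x‖ ^ p ∂μ) = J := by
      rw [ofReal_integral_eq_lintegral_ofReal hFi (Eventually.of_forall fun x => by positivity)]
      exact lintegral_congr fun x => hen x
    have hJf : J ≠ ∞ := by rw [← hJe]; exact ENNReal.ofReal_ne_top
    have h4 : ‖∫ x, F x * g x ∂(μ.restrict B)‖ₑ = J := by
      have e1 : ∫ x, F x * g x ∂(μ.restrict B) = ((∫ x in B, ‖F x‖ ^ p ∂μ : ℝ) : ℂ) := by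
        rw [← integral_complex_ofReal]
        refine setIntegral_congr_fun hBm fun x hx => ?_
        simp only [hg, gt]
        rw [indicator_of_mem hx, ← mul_assoc, Complex.mul_conj, Complex.normSq_eq_norm_sq,
          ← Complex.ofReal_mul, sq_mul_pow (norm_nonneg _) hp]
      rw [e1, ← hJe, ← ofReal_norm, Complex.norm_real, Real.norm_of_nonneg
        (integral_nonneg fun x => by positivity)]
    have h5 : ∫⁻ x, ‖g x‖ₑ ^ (p / (p - 1)) ∂μ = J := by
      rw [hJ, ← lintegral_indicator hBm]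
      refine lintegral_congr fun x => ?_
      rw [← ofReal_norm, hg, gt_norm F B hp]
      by_cases hx : x ∈ B
      · rw [indicator_of_mem hx, indicator_of_mem hx,
          ENNReal.ofReal_rpow_of_nonneg (by positivity) (by positivity),
          ← Real.rpow_mul (norm_nonneg _), mul_div_cancel₀ _ hp1.ne', hen]
      · rw [indicator_of_notMem hx, indicator_of_notMem hx, ENNReal.ofReal_zero,
          ENNReal.zero_rpow_of_pos (by positivity)]
    rw [h4] at h3
    rw [h5] at h1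
    set N : ℝ≥0∞ := ∫⁻ x, ‖f x‖ₑ ^ (2 : ℝ) with hN
    set c : ℝ := C * A ^ (-th n γ p + ε) with hc
    have hc0 : 0 ≤ c := by positivity
    have h6 : J ≤ (N ^ (1 / 2 : ℝ) * ENNReal.ofReal c ^ (1 / 2 : ℝ)) * J ^ ((p - 1) / p) := by
      refine h3.trans ?_
      rw [mul_assoc]
      gcongr
      refine (ENNReal.rpow_le_rpow h1 (by norm_num)).trans (le_of_eq ?_)
      rw [ENNReal.mul_rpow_of_nonneg _ _ (by norm_num), ← ENNReal.rpow_mul]
      congr 2
      field_simp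
    refine (absorb hJf (by linarith) h6).trans (le_of_eq ?_)
    rw [ENNReal.mul_rpow_of_nonneg _ _ hp0.le, ← ENNReal.rpow_mul, ← ENNReal.rpow_mul,
      ← ENNReal.ofReal_rpow_of_nonneg hc0 (by positivity), mul_comm]
    congr 2 <;> ring
  -- monotone convergence
  have hcov : AECover μ atTop (fun k : ℕ => closedBall (0 : E n) ((k : ℝ) + 1)) :=
    aecover_closedBall (tendsto_atTop_add_const_right _ _ tendsto_natCast_atTop_atTop)
  have hlim := hcov.lintegral_tendsto_of_countably_generated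
    (f := fun x => ‖F x‖ₑ ^ p) (hFm.enorm.pow_const _).aemeasurable
  exact le_of_tendsto' hlim fun k => hloc _ (by
    have : (0 : ℝ) ≤ k := Nat.cast_nonneg k
    linarith)

theorem gn_cst {C V A ρ : ℝ} (hC : 0 < C) (hV : 0 < V) (hA : 0 < A) (hρ : 0 < ρ) (e p : ℝ)
    (n : ℕ) : (C * A ^ e) ^ (p / 2) * (V * (2 * ρ) ^ n) ^ (p / 2 - 1) =
      C ^ (p / 2) * (V * 2 ^ n) ^ (p / 2 - 1) * A ^ (e * (p / 2)) *
        ρ ^ (n * (p / 2 - 1)) := by
  rw [Real.mul_rpow (by positivity) (by positivity), mul_pow,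
    ← mul_assoc V, Real.mul_rpow (x := V * 2 ^ n) (by positivity) (by positivity),
    Real.rpow_mul hA.le, Real.rpow_mul hρ.le (n : ℝ), Real.rpow_natCast]
  ring

theorem t_gn (n : ℕ) (_hn : 2 ≤ n) : S_GL2 n → S_GN n := by
  intro h ψ hψ γ K₀ p ε hγ0 hγ1 hK0 hp hε
  obtain ⟨C, hC, hE⟩ := h ψ hψ γ K₀ p ε hγ0 hγ1 hK0 hp hε
  obtain ⟨V, hV, hVb⟩ := ball_vol n
  refine ⟨C ^ (p / 2) * (V * 2 ^ n) ^ (p / 2 - 1), by positivity,
    fun μ hμ hG A hA u ρ hρ f hfm hfs hfp => ?_⟩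
  have hA0 : 0 < A := by linarith
  have hp0 : 0 < p := by linarith
  have hρ0 : 0 < ρ := by linarith
  have hBm : MeasurableSet (closedBall u (2 * ρ)) := isClosed_closedBall.measurableSet
  have hfi := int_of_loc hfm hfs p (by linarith) hfp
  have hl2 := loc_norm hfm hBm hfs 2 p two_pos hp
  have h2p : 0 ≤ 1 - 2 / p := by
    rw [sub_nonneg, div_le_one hp0]; exact hp
  have hl2f : ∫⁻ x, ‖f x‖ₑ ^ (2 : ℝ) ≠ ∞ := by
    refine (hl2.trans_lt ?_).ne
    exact ENNReal.mul_lt_top (ENNReal.rpow_lt_top_of_nonneg h2p measure_closedBall_lt_top.ne)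
      (ENNReal.rpow_lt_top_of_nonneg (by positivity) hfp)
  have hf2 := memLp_two hfm hl2f
  have h1 := hE μ hμ hG A hA f hfm hfi hf2
  refine (setLIntegral_le_lintegral _ _).trans (h1.trans ?_)
  rw [hVb u (2 * ρ) (by positivity)] at hl2
  set e : ℝ := -th n γ p + ε with he
  refine (mul_le_mul' le_rfl (ENNReal.rpow_le_rpow hl2 (show 0 ≤ p / 2 by positivity))).trans
    (le_of_eq ?_)
  rw [ENNReal.mul_rpow_of_nonneg _ _ (by positivity), ← ENNReal.rpow_mul, ← ENNReal.rpow_mul,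
    show 2 / p * (p / 2) = 1 by field_simp, ENNReal.rpow_one,
    show (1 - 2 / p) * (p / 2) = p / 2 - 1 by field_simp,
    ENNReal.ofReal_rpow_of_nonneg (by positivity) (by linarith), ← mul_assoc,
    ← ENNReal.ofReal_mul (by positivity)]
  congr 2
  exact gn_cst hC hV hA0 hρ0 e p n

end Pool.Agent.Y350.FC
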